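import Pool.Graph.R_pool_sql_team_seeded_64922ed1.X108.HB.Z3
import Pool.Graph.R_pool_sql_team_seeded_64922ed1.X108.HB.PR

/-!
# The mean square of `∑_t r^{it}` over the rationals of height at most `X` close to `1`
-/

set_option autoImplicit false

namespace Pool.Agent.H73.HB

open Finset MeasureTheory Pool.Agent.Y766 Pool.Agent.Y766.PS Pool.Agent.X108.HB

/-- the large sieve for well spaced points and frequencies close to zero -/
theorem large_sieve_near {X : ℕ} (hX : 1 ≤ X) (b : ℚ → ℂ) {Λ Δ : ℝ} (hΔ : 1 ≤ Δ)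
    (hb : ∀ r ∈ FX X, b r ≠ 0 → |Real.log (r : ℝ)| ≤ Λ) (S : Finset ℝ)
    (hS : ∀ t ∈ S, ∀ u ∈ S, t ≠ u → Δ ≤ |t - u|) (x T : ℝ)
    (hT : 0 ≤ T) (hx : ∀ t ∈ S, x ≤ t ∧ t ≤ x + T) :
    ∑ t ∈ S, ‖RP (FX X) b t‖ ^ 2 ≤
      ((2 + (Δ * Λ) ^ 2) * ((T + Δ) + 4 * (X : ℝ) ^ 2 * (2 + 3 * Real.log X)) / Δ) *
        ∑ r ∈ FX X, ‖b r‖ ^ 2 := by
  classical
  have hΔ0 : 0 < Δ := by linarith
  have hX1 : (1 : ℝ) ≤ X := by exact_mod_cast hX
  have hL : 0 ≤ Real.log X := Real.log_nonneg hX1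
  set a' : ℚ → ℂ := fun r => Complex.I * (Real.log (r : ℝ) : ℂ) * b r with ha'
  have hc := RP_cont (FX X) b
  have hc' := RP_cont (FX X) a'
  set h : ℝ → ℂ := fun u => RP (FX X) b (Δ * u) with hh
  set h' : ℝ → ℂ := fun u => (Δ : ℂ) * RP (FX X) a' (Δ * u) with hh'
  have hder : ∀ u, HasDerivAt h (h' u) u := by
    intro u
    have h1 := (RP_hasDeriv (FX X) b (Δ * u)).scomp u ((hasDerivAt_id u).const_mul Δ)
    have h2 : (Δ * 1) • RP (FX X) (fun r => Complex.I * (Real.log (r : ℝ) : ℂ) * b r) (Δ * u) = h' u := by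
      rw [hh', mul_one, Complex.real_smul]
    rw [h2] at h1
    exact h1
  have hch : Continuous h := by fun_prop
  have hch' : Continuous h' := by fun_prop
  set S' : Finset ℝ := S.image (fun t => t / Δ) with hS'
  have hinj : Set.InjOn (fun t : ℝ => t / Δ) (S : Set ℝ) := by
    intro t _ u _ htu
    simp only at htu
    rwa [div_left_inj' hΔ0.ne'] at htu
  have hsep : ∀ t ∈ S', ∀ u ∈ S', t ≠ u → 1 ≤ |t - u| := by
    intro t ht u hu htu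
    rw [hS', mem_image] at ht hu
    obtain ⟨t0, ht0, rfl⟩ := ht
    obtain ⟨u0, hu0, rfl⟩ := hu
    have hne : t0 ≠ u0 := by
      rintro rfl
      exact htu rfl
    have h1 := hS t0 ht0 u0 hu0 hne
    rw [← sub_div, abs_div, abs_of_pos hΔ0, le_div_iff₀ hΔ0, one_mul]
    exact h1
  have hx' : ∀ t ∈ S', x / Δ ≤ t ∧ t ≤ (x + T) / Δ := by
    intro t ht
    rw [hS', mem_image] at ht
    obtain ⟨t0, ht0, rfl⟩ := ht
    exact ⟨(div_le_div_iff_of_pos_right hΔ0).2 (hx t0 ht0).1,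
      (div_le_div_iff_of_pos_right hΔ0).2 (hx t0 ht0).2⟩
  have e0 : ∑ t ∈ S, ‖RP (FX X) b t‖ ^ 2 = ∑ t ∈ S', ‖h t‖ ^ 2 := by
    rw [hS', sum_image hinj]
    refine sum_congr rfl fun t _ => ?_
    simp only [hh]
    rw [mul_div_cancel₀ _ hΔ0.ne']
  rw [e0]
  have h1 : ∑ t ∈ S', ‖h t‖ ^ 2 ≤
      ∑ t ∈ S', ∫ u in t..(t + 1), (2 * ‖h u‖ ^ 2 + ‖h' u‖ ^ 2) := by
    apply sum_le_sum
    intro t _
    exact Pool.Agent.W170.MV.gall hder hch hch' t t le_rfl (by linarith)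
  refine h1.trans ((Pool.Agent.TH705.DL.sum_unit_le (by fun_prop) (fun _ => by positivity) S' hsep
    (x / Δ) ((x + T) / Δ) ((div_le_div_iff_of_pos_right hΔ0).2 (by linarith)) hx').trans ?_)
  rw [intervalIntegral.integral_add (by apply Continuous.intervalIntegrable; fun_prop)
    (by apply Continuous.intervalIntegrable; fun_prop), intervalIntegral.integral_const_mul]
  have hend : (x + T) / Δ + 1 = (x + T + Δ) / Δ := by field_simp
  have i1 : ∫ u in (x / Δ)..((x + T) / Δ + 1), ‖h u‖ ^ 2 =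
      Δ⁻¹ * ∫ v in x..(x + T + Δ), ‖RP (FX X) b v‖ ^ 2 := by
    have := intervalIntegral.integral_comp_mul_left (a := x / Δ) (b := (x + T + Δ) / Δ)
      (fun v => ‖RP (FX X) b v‖ ^ 2) hΔ0.ne'
    rw [mul_div_cancel₀ _ hΔ0.ne', mul_div_cancel₀ _ hΔ0.ne'] at this
    rw [hend, smul_eq_mul] at *
    exact this
  have i2 : ∫ u in (x / Δ)..((x + T) / Δ + 1), ‖h' u‖ ^ 2 =
      Δ ^ 2 * (Δ⁻¹ * ∫ v in x..(x + T + Δ), ‖RP (FX X) a' v‖ ^ 2) := by
    have e : ∀ u, ‖h' u‖ ^ 2 = Δ ^ 2 * ‖RP (FX X) a' (Δ * u)‖ ^ 2 := by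
      intro u
      rw [hh']
      simp only [norm_mul, Complex.norm_real, Real.norm_eq_abs]
      rw [mul_pow, sq_abs]
    simp only [e]
    rw [intervalIntegral.integral_const_mul]
    have := intervalIntegral.integral_comp_mul_left (a := x / Δ) (b := (x + T + Δ) / Δ)
      (fun v => ‖RP (FX X) a' v‖ ^ 2) hΔ0.ne'
    rw [mul_div_cancel₀ _ hΔ0.ne', mul_div_cancel₀ _ hΔ0.ne'] at this
    rw [hend, smul_eq_mul] at *
    rw [this]
  rw [i1, i2]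
  have h2 := mean_value hX b x (x + T + Δ) (by linarith)
  have h3 := mean_value hX a' x (x + T + Δ) (by linarith)
  have h4 : ∑ r ∈ FX X, ‖a' r‖ ^ 2 ≤ Λ ^ 2 * ∑ r ∈ FX X, ‖b r‖ ^ 2 := by
    rw [mul_sum]
    apply sum_le_sum
    intro n hn
    simp only [ha', norm_mul, Complex.norm_I, one_mul, Complex.norm_real, Real.norm_eq_abs]
    rw [mul_pow]
    by_cases hz : b n = 0
    · rw [hz]; simp
    · have hl := hb n hn hz
      exact mul_le_mul_of_nonneg_right (pow_le_pow_left₀ (abs_nonneg _) hl 2) (by positivity)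
  have e : x + T + Δ - x = T + Δ := by ring
  rw [e] at h2 h3
  set K := (T + Δ) + 4 * (X : ℝ) ^ 2 * (2 + 3 * Real.log X) with hK
  have hK0 : 0 ≤ K := by positivity
  have h5 : K * ∑ r ∈ FX X, ‖a' r‖ ^ 2 ≤ K * (Λ ^ 2 * ∑ r ∈ FX X, ‖b r‖ ^ 2) :=
    mul_le_mul_of_nonneg_left h4 hK0
  have hinv : 0 ≤ Δ⁻¹ := by positivity
  calc 2 * (Δ⁻¹ * ∫ v in x..(x + T + Δ), ‖RP (FX X) b v‖ ^ 2) +
        Δ ^ 2 * (Δ⁻¹ * ∫ v in x..(x + T + Δ), ‖RP (FX X) a' v‖ ^ 2)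
      ≤ 2 * (Δ⁻¹ * (K * ∑ r ∈ FX X, ‖b r‖ ^ 2)) +
        Δ ^ 2 * (Δ⁻¹ * (K * (Λ ^ 2 * ∑ r ∈ FX X, ‖b r‖ ^ 2))) := by
        have := h3.trans h5
        gcongr
    _ = _ := by field_simp

/-- the products of frequencies close to zero -/
theorem pwc_near (b : ℚ → ℂ) (X : ℕ) {Λ : ℝ}
    (hb : ∀ r ∈ FX X, b r ≠ 0 → |Real.log (r : ℝ)| ≤ Λ) (m : ℕ) (ρ : ℚ)
    (h : pwc b X m ρ ≠ 0) : |Real.log (ρ : ℝ)| ≤ m * Λ := by
  classical
  induction m generalizing ρ with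
  | zero =>
    unfold pwc at h
    have h1 : ρ = 1 := by
      by_contra h2
      rw [if_neg h2] at h
      exact h rfl
    rw [h1]
    simp
  | succ m ih =>
    have h1 : cv (FX (X ^ m)) (FX X) (pwc b X m) b ρ ≠ 0 := h
    unfold cv at h1
    obtain ⟨p, hp, hp0⟩ := exists_ne_zero_of_sum_ne_zero h1
    rw [mem_filter, mem_product] at hp
    have k1 := ih p.1 (left_ne_zero_of_mul hp0)
    have k2 := hb p.2 hp.1.2 (right_ne_zero_of_mul hp0)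
    have q1 : (0 : ℝ) < p.1 := by exact_mod_cast (mem_FX.1 hp.1.1).1
    have q2 : (0 : ℝ) < p.2 := by exact_mod_cast (mem_FX.1 hp.1.2).1
    rw [← hp.2]
    push_cast
    rw [Real.log_mul q1.ne' q2.ne']
    calc |Real.log (p.1 : ℝ) + Real.log (p.2 : ℝ)| ≤ |Real.log (p.1 : ℝ)| + |Real.log (p.2 : ℝ)| :=
          abs_add_le _ _
      _ ≤ m * Λ + Λ := add_le_add k1 k2
      _ = _ := by ring

/-- close to one -/
def Near (κ Δ : ℝ) (r : ℚ) : Prop := Δ * |Real.log (r : ℝ)| ≤ κ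

/-- the mean square over the rationals of height at most `X` close to one -/
noncomputable def SN (S : Finset ℝ) (κ Δ : ℝ) (X : ℕ) : ℝ := by
  classical
  exact ∑ r ∈ (FX X).filter (Near κ Δ), ‖∑ t ∈ S, ee t r‖ ^ 2

theorem SN_nonneg (S : Finset ℝ) (κ Δ : ℝ) (X : ℕ) : 0 ≤ SN S κ Δ X := by
  unfold SN
  exact sum_nonneg fun _ _ => by positivity

theorem SN_trivial (S : Finset ℝ) (κ Δ : ℝ) (X : ℕ) :
    SN S κ Δ X ≤ (X : ℝ) ^ 2 * (S.card : ℝ) ^ 2 := by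
  classical
  refine le_trans ?_ (SS_trivial S (fun _ => 1) (fun _ _ => by simp) X)
  unfold SN Pool.Agent.X108.HB.SS
  simp only [one_mul]
  exact sum_le_sum_of_subset_of_nonneg (filter_subset _ _) fun _ _ _ => by positivity

/-- the large sieve constant -/
noncomputable def KN (κ T Δ : ℝ) (m X : ℕ) : ℝ :=
  (2 + (m * κ : ℝ) ^ 2) * ((T + Δ) + 4 * (X : ℝ) ^ 2 * (2 + 3 * Real.log X)) / Δ

theorem KN_pos {κ T Δ : ℝ} {m X : ℕ} (hT : 0 ≤ T) (hΔ : 1 ≤ Δ) (hX : 1 ≤ X) : 0 < KN κ T Δ m X := by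
  have hX1 : (1 : ℝ) ≤ X := by exact_mod_cast hX
  have hlog : 0 ≤ Real.log X := Real.log_nonneg hX1
  unfold KN
  positivity

theorem spec_near {X m τ : ℕ} (hX : 1 ≤ X) (hm : 1 ≤ m)
    (hτ : ∀ n, 1 ≤ n → n ≤ (X ^ m) ^ 2 → n.divisors.card ≤ τ) (S : Finset ℝ) {κ Δ : ℝ} (hΔ : 1 ≤ Δ)
    (hS : ∀ t ∈ S, ∀ u ∈ S, t ≠ u → Δ ≤ |t - u|) (x T : ℝ)
    (hT : 0 ≤ T) (hx : ∀ t ∈ S, x ≤ t ∧ t ≤ x + T) :
    SN S κ Δ X ^ m ≤ (S.card : ℝ) ^ (2 * m - 1) * (KN κ T Δ m (X ^ m) * (τ : ℝ) ^ (6 * m)) := by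
  classical
  have hΔ0 : 0 < Δ := by linarith
  set C : ℚ → ℂ := fun r => ∑ t ∈ S, ee t r with hC
  set Q := SN S κ Δ X with hQ
  have hQ0 : 0 ≤ Q := SN_nonneg _ _ _ _
  set b : ℚ → ℂ := fun r => if Near κ Δ r then (starRingEnd ℂ) (C r) else 0 with hb
  have hXm : 1 ≤ X ^ m := Nat.one_le_pow _ _ hX
  have hK := KN_pos (κ := κ) (m := m) hT hΔ hXm
  have e2 : ∑ r ∈ FX X, ‖b r‖ ^ 2 = Q := by
    rw [hQ]
    unfold SN
    rw [sum_filter]
    refine sum_congr rfl fun r _ => ?_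
    simp only [hb]
    split_ifs with h
    · rw [RCLike.norm_conj]
    · simp
  have h1 : (Q : ℂ) = ∑ t ∈ S, RP (FX X) b t := by
    rw [← e2]
    push_cast
    have : ∀ n, ((‖b n‖ : ℂ)) ^ 2 = b n * ∑ t ∈ S, ee t n := by
      intro n
      simp only [hb]
      split_ifs with h
      · rw [RCLike.norm_conj, ← Complex.conj_mul']
      · simp
    simp only [this, mul_sum, RP]
    rw [sum_comm]
  have h2 : Q ≤ ∑ t ∈ S, ‖RP (FX X) b t‖ := by
    have : Q ≤ ‖(Q : ℂ)‖ := by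
      rw [Complex.norm_real]
      exact le_abs_self _
    refine this.trans ?_
    rw [h1]
    exact norm_sum_le _ _
  rcases S.eq_empty_or_nonempty with hSe | hSn
  · have : Q = 0 := by
      rw [hQ]
      unfold SN
      rw [hSe]
      simp
    rw [this, zero_pow (by omega)]
    positivity
  have hcard : (0 : ℝ) < S.card := by exact_mod_cast hSn.card_pos
  -- power mean
  have h3 : (∑ t ∈ S, ‖RP (FX X) b t‖) ^ (2 * m) ≤
      (S.card : ℝ) ^ (2 * m - 1) * ∑ t ∈ S, ‖RP (FX X) b t‖ ^ (2 * m) := by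
    obtain ⟨k, hk⟩ : ∃ k, 2 * m = k + 1 := ⟨2 * m - 1, by omega⟩
    have h4 := pow_sum_div_card_le_sum_pow (s := S) (f := fun t => ‖RP (FX X) b t‖)
      (fun t _ => norm_nonneg _) k
    rw [div_le_iff₀ (by positivity)] at h4
    rw [hk, Nat.add_sub_cancel]
    linarith
  have hbn : ∀ r ∈ FX X, b r ≠ 0 → |Real.log (r : ℝ)| ≤ κ / Δ := by
    intro r _ hr
    have hn : Near κ Δ r := by
      by_contra h
      apply hr
      simp only [hb]
      rw [if_neg h]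
    unfold Near at hn
    rw [le_div_iff₀ hΔ0]
    linarith
  have h4 : ∑ t ∈ S, ‖RP (FX X) b t‖ ^ (2 * m) ≤
      KN κ T Δ m (X ^ m) * ((τ : ℝ) ^ (6 * m) * Q ^ m) := by
    have h5 := large_sieve_near hXm (pwc b X m) hΔ (fun r _ hr => pwc_near b X hbn m r hr) S hS x T hT hx
    have h6 := pwc_norm b hX hτ m le_rfl
    have e1 : ∑ t ∈ S, ‖RP (FX (X ^ m)) (pwc b X m) t‖ ^ 2 =
        ∑ t ∈ S, ‖RP (FX X) b t‖ ^ (2 * m) := by
      refine sum_congr rfl fun t _ => ?_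
      rw [pwc_eval, norm_pow, ← pow_mul, mul_comm]
    have e3 : Δ * (m * (κ / Δ)) = m * κ := by field_simp
    rw [e1, e3] at h5
    rw [e2] at h6
    exact h5.trans (mul_le_mul_of_nonneg_left h6 hK.le)
  rcases hQ0.eq_or_lt with h6 | h6
  · rw [← h6, zero_pow (by omega)]
    positivity
  · have h7 : Q ^ m * Q ^ m ≤ ((S.card : ℝ) ^ (2 * m - 1) * (KN κ T Δ m (X ^ m) * (τ : ℝ) ^ (6 * m))) *
        Q ^ m := by
      calc Q ^ m * Q ^ m = Q ^ (2 * m) := by rw [← pow_add]; congr 1; omega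
        _ ≤ (∑ t ∈ S, ‖RP (FX X) b t‖) ^ (2 * m) := pow_le_pow_left₀ hQ0 h2 _
        _ ≤ _ := h3
        _ ≤ (S.card : ℝ) ^ (2 * m - 1) * (KN κ T Δ m (X ^ m) * ((τ : ℝ) ^ (6 * m) * Q ^ m)) := by gcongr
        _ = _ := by ring
    exact le_of_mul_le_mul_right h7 (by positivity)

end Pool.Agent.H73.HB
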