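import Pool.Agent.H73.HB.A

set_option autoImplicit false

namespace Pool.Agent.H73.HB

open Finset MeasureTheory Pool.Agent.Y766 Pool.Agent.Y766.PS Pool.Agent.X108.HB

/-- the bound for the powers -/
theorem SB_near {ε : ℝ} (hε : 0 < ε) (M : ℕ) : ∃ C : ℝ, 1 ≤ C ∧ ∀ (κ T Δ : ℝ), 1 ≤ κ → 1 ≤ Δ → Δ ≤ T →
    ∀ (S : Finset ℝ) (x : ℝ), (∀ t ∈ S, ∀ u ∈ S, t ≠ u → Δ ≤ |t - u|) →
    (∀ t ∈ S, x ≤ t ∧ t ≤ x + T) → ∀ (X m : ℕ), 1 ≤ X → 1 ≤ m → m ≤ M →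
    (X : ℝ) ^ m ≤ 2 * T →
    SN S κ Δ X ^ m ≤ C * κ ^ 2 * T ^ ε * (S.card : ℝ) ^ (2 * m - 1) * ((T + ((X : ℝ) ^ m) ^ 2) / Δ) := by
  set η : ℝ := ε / 6 with hη
  have hη0 : 0 < η := by positivity
  set δ : ℝ := ε / (24 * (M + 1)) with hδ
  have hδ0 : 0 < δ := by positivity
  obtain ⟨C2, hC2, h2⟩ := log_absorb hη0
  obtain ⟨D, hD1, hD⟩ := Pool.Agent.H505R2.div_bound hδ0
  have h2ε : (1 : ℝ) ≤ 2 ^ ε := Real.one_le_rpow (by norm_num) hε.le
  have hC23 : 1 ≤ C2 ^ 3 := one_le_pow₀ hC2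
  have hDM : 1 ≤ (2 * D) ^ (6 * M) := one_le_pow₀ (by linarith)
  set G : ℝ := 2 + (M : ℝ) ^ 2 with hG
  have hG1 : 1 ≤ G := by rw [hG]; nlinarith [sq_nonneg (M : ℝ)]
  refine ⟨12 * G * C2 ^ 3 * (2 * D) ^ (6 * M) * 2 ^ ε, ?_, ?_⟩
  · have a1 : 1 ≤ 12 * G := by linarith
    have a2 : 1 ≤ 12 * G * C2 ^ 3 := by nlinarith
    have a3 : 1 ≤ 12 * G * C2 ^ 3 * (2 * D) ^ (6 * M) := by nlinarith
    nlinarith
  intro κ T Δ hκ hΔ hΔT S x hS hSx X m hX hm hmM hXT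
  have hT : 1 ≤ T := hΔ.trans hΔT
  have hΔ0 : 0 < Δ := by linarith
  have hT0 : 0 < T := by linarith
  have h2T : 1 ≤ 2 * T := by linarith
  have h2T0 : 0 < 2 * T := by linarith
  set Y : ℕ := X ^ m with hY
  have hY1 : 1 ≤ Y := Nat.one_le_pow _ _ hX
  have hYr : (1 : ℝ) ≤ Y := by exact_mod_cast hY1
  have hY0 : (0 : ℝ) < Y := by linarith
  have hYT : (Y : ℝ) ≤ 2 * T := by rw [hY]; push_cast; exact hXT
  set R : ℝ := D * (2 * T) ^ (2 * δ) with hR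
  have hR1 : 1 ≤ R := by
    have : 1 ≤ (2 * T) ^ (2 * δ) := Real.one_le_rpow h2T (by positivity)
    nlinarith
  set τ : ℕ := ⌈R⌉₊ with hτ
  have hτR : R ≤ τ := Nat.le_ceil R
  have hτ2 : (τ : ℝ) ≤ 2 * R := by
    have := Nat.ceil_lt_add_one (show 0 ≤ R by linarith)
    rw [← hτ] at this
    linarith
  have hτd : ∀ n, 1 ≤ n → n ≤ Y ^ 2 → n.divisors.card ≤ τ := by
    intro n hn1 hn2
    have h1 := hD n (by omega)
    have h3 : (n : ℝ) ^ δ ≤ (2 * T) ^ (2 * δ) := by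
      have h4 : (n : ℝ) ≤ (2 * T) ^ (2 : ℝ) := by
        have h5 : (n : ℝ) ≤ (Y : ℝ) ^ 2 := by exact_mod_cast hn2
        have h6 : (Y : ℝ) ^ 2 ≤ (2 * T) ^ 2 := pow_le_pow_left₀ hY0.le hYT 2
        have h7 : ((2 * T) ^ (2 : ℝ) : ℝ) = (2 * T) ^ 2 := by
          rw [← Real.rpow_natCast]; norm_num
        rw [h7]
        linarith
      rw [Real.rpow_mul h2T0.le]
      exact Real.rpow_le_rpow (Nat.cast_nonneg _) h4 hδ0.le
    have h4 : (n.divisors.card : ℝ) ≤ R := h1.trans (by rw [hR]; gcongr)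
    exact_mod_cast h4.trans hτR
  have key := spec_near (X := X) (m := m) (τ := τ) hX hm (by rw [← hY]; exact hτd) S (κ := κ) hΔ hS x T hT0.le
    hSx
  rw [← hY] at key
  -- the divisor factor
  have hτp : (τ : ℝ) ^ (6 * m) ≤ (2 * D) ^ (6 * M) * (2 * T) ^ (ε / 2) := by
    have hτ1 : (1 : ℝ) ≤ τ := hR1.trans hτR
    calc (τ : ℝ) ^ (6 * m) ≤ (τ : ℝ) ^ (6 * M) := pow_le_pow_right₀ hτ1 (by omega)
      _ ≤ (2 * R) ^ (6 * M) := pow_le_pow_left₀ (by linarith) hτ2 _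
      _ = (2 * D) ^ (6 * M) * ((2 * T) ^ (2 * δ)) ^ (6 * M) := by
          rw [hR, ← mul_pow]; ring
      _ = (2 * D) ^ (6 * M) * (2 * T) ^ (2 * δ * (6 * M : ℕ)) := by
          rw [← Real.rpow_natCast, ← Real.rpow_natCast, ← Real.rpow_mul h2T0.le]
      _ ≤ _ := by
          apply mul_le_mul_of_nonneg_left _ (by positivity)
          apply Real.rpow_le_rpow_of_exponent_le h2T
          rw [hδ]
          push_cast
          have hM0 : (0 : ℝ) ≤ M := Nat.cast_nonneg M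
          have e : 2 * (ε / (24 * ((M : ℝ) + 1))) * (6 * M) = ε / 2 * (M / (M + 1)) := by
            field_simp
            ring
          rw [e]
          have : (M : ℝ) / (M + 1) ≤ 1 := by
            rw [div_le_one (by linarith)]
            linarith
          nlinarith
  -- the large sieve factor
  have hKL : KN κ T Δ m Y ≤ κ ^ 2 * (12 * G * C2 ^ 3 * (2 * T) ^ (ε / 2) * ((T + (Y : ℝ) ^ 2) / Δ)) := by
    have hlog0 : 0 ≤ Real.log Y := Real.log_nonneg hYr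
    have hlog : 1 + Real.log Y ≤ C2 * (2 * T) ^ η := by
      refine (h2 Y hYr).trans ?_
      have := Real.rpow_le_rpow hY0.le hYT hη0.le
      gcongr
    set Z := C2 * (2 * T) ^ η with hZ
    have hZ1 : 1 ≤ Z := by linarith
    have a1 : 2 + (m * κ : ℝ) ^ 2 ≤ κ ^ 2 * G := by
      rw [hG]
      have h1 : (m : ℝ) ≤ M := by exact_mod_cast hmM
      have h2 : (m : ℝ) ^ 2 ≤ (M : ℝ) ^ 2 := pow_le_pow_left₀ (Nat.cast_nonneg _) h1 2
      have h3 : 1 ≤ κ ^ 2 := one_le_pow₀ hκ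
      have h4 : (m * κ : ℝ) ^ 2 = κ ^ 2 * (m : ℝ) ^ 2 := by ring
      rw [h4]
      have h5 : κ ^ 2 * (m : ℝ) ^ 2 ≤ κ ^ 2 * (M : ℝ) ^ 2 := mul_le_mul_of_nonneg_left h2 (by positivity)
      nlinarith
    have a2 : (T + Δ) + 4 * (Y : ℝ) ^ 2 * (2 + 3 * Real.log Y) ≤ 12 * Z * (T + (Y : ℝ) ^ 2) := by
      have b1 : 4 * (Y : ℝ) ^ 2 * (2 + 3 * Real.log Y) ≤ 12 * (Y : ℝ) ^ 2 * Z := by
        have : 2 + 3 * Real.log Y ≤ 3 * Z := by linarith
        calc 4 * (Y : ℝ) ^ 2 * (2 + 3 * Real.log Y) ≤ 4 * (Y : ℝ) ^ 2 * (3 * Z) := by gcongr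
          _ = _ := by ring
      have b2 : T + Δ ≤ 12 * Z * T := by nlinarith
      linarith
    have a3 : Z ≤ Z ^ 3 := le_self_pow₀ hZ1 (by norm_num)
    unfold KN
    calc _ ≤ ((κ ^ 2 * G) * (12 * Z * (T + (Y : ℝ) ^ 2))) / Δ := by
          apply div_le_div_of_nonneg_right _ hΔ0.le
          exact mul_le_mul a1 a2 (by positivity) (by positivity)
      _ = κ ^ 2 * (12 * G * Z * ((T + (Y : ℝ) ^ 2) / Δ)) := by ring
      _ ≤ κ ^ 2 * (12 * G * Z ^ 3 * ((T + (Y : ℝ) ^ 2) / Δ)) := by gcongr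
      _ = κ ^ 2 * (12 * G * (C2 ^ 3 * (2 * T) ^ (ε / 2)) * ((T + (Y : ℝ) ^ 2) / Δ)) := by
          rw [hZ, mul_pow, ← Real.rpow_natCast ((2 * T) ^ η), ← Real.rpow_mul h2T0.le]
          congr 4
          rw [hη]
          push_cast
          ring_nf
      _ = _ := by ring
  have hYeq : ((X : ℝ) ^ m) ^ 2 = (Y : ℝ) ^ 2 := by rw [hY]; push_cast; rfl
  rw [hYeq]
  refine key.trans ?_
  have hTε : (2 * T) ^ (ε / 2) * (2 * T) ^ (ε / 2) = 2 ^ ε * T ^ ε := by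
    rw [← Real.rpow_add h2T0, add_halves, Real.mul_rpow (by norm_num) hT0.le]
  have hKLpos := KN_pos (κ := κ) (m := m) hT0.le hΔ hY1
  calc (S.card : ℝ) ^ (2 * m - 1) * (KN κ T Δ m Y * (τ : ℝ) ^ (6 * m))
      ≤ (S.card : ℝ) ^ (2 * m - 1) * ((κ ^ 2 * (12 * G * C2 ^ 3 * (2 * T) ^ (ε / 2) *
          ((T + (Y : ℝ) ^ 2) / Δ))) * ((2 * D) ^ (6 * M) * (2 * T) ^ (ε / 2))) := by gcongr
    _ = 12 * G * C2 ^ 3 * (2 * D) ^ (6 * M) * κ ^ 2 * ((2 * T) ^ (ε / 2) * (2 * T) ^ (ε / 2)) *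
          (S.card : ℝ) ^ (2 * m - 1) * ((T + (Y : ℝ) ^ 2) / Δ) := by ring
    _ = _ := by rw [hTε]; ring

/-- the right hand side -/
noncomputable def RN (s T Δ X : ℝ) : ℝ :=
  s ^ 2 * (X + X ^ 2 / (s * Δ) + T ^ (1 / 2 : ℝ) / (s * Δ) ^ (3 / 4 : ℝ) * X)

theorem RN_nonneg {s T Δ X : ℝ} (hs : 0 ≤ s) (hT : 0 ≤ T) (hΔ : 0 ≤ Δ) (hX : 0 ≤ X) :
    0 ≤ RN s T Δ X := by unfold RN; positivity

/-- combination of the bounds for the powers -/
theorem combine {ε : ℝ} (hε : 0 < ε) {C T σ F : ℝ} {X : ℕ} (hC1 : 1 ≤ C) (hT : 1 ≤ T) (hσ : 1 ≤ σ)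
    (hX : 1 ≤ X) (hX2T : (X : ℝ) ≤ 2 * T) (hF0 : 0 ≤ F) (hFt : F ≤ (X : ℝ) ^ 2)
    (hC : ∀ m : ℕ, 1 ≤ m → m ≤ ⌈1 / ε⌉₊ + 1 → (X : ℝ) ^ m ≤ 2 * T →
      F ^ m ≤ C * T ^ ε * ((T + ((X : ℝ) ^ m) ^ 2) / σ)) :
    F ≤ 2 * C * T ^ ε * (X + X ^ 2 / σ + T ^ (1 / 2 : ℝ) / σ ^ (3 / 4 : ℝ) * X) := by
  set M : ℕ := ⌈1 / ε⌉₊ + 1 with hM
  have hT0 : 0 < T := by linarith
  have hσ0 : 0 < σ := by linarith
  have hXr : (1 : ℝ) ≤ X := by exact_mod_cast hX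
  have hX0 : (0 : ℝ) < X := by linarith
  have hTε1 : 1 ≤ T ^ ε := Real.one_le_rpow hT hε.le
  set R : ℝ := X + X ^ 2 / σ + T ^ (1 / 2 : ℝ) / σ ^ (3 / 4 : ℝ) * X with hR
  have p1 : 0 ≤ (X : ℝ) ^ 2 / σ := by positivity
  have p2 : 0 ≤ T ^ (1 / 2 : ℝ) / σ ^ (3 / 4 : ℝ) * X := by positivity
  have hR1 : (X : ℝ) ≤ R := by rw [hR]; linarith
  have hR2 : (X : ℝ) ^ 2 / σ ≤ R := by rw [hR]; linarith
  have hR3 : T ^ (1 / 2 : ℝ) / σ ^ (3 / 4 : ℝ) * X ≤ R := by rw [hR]; linarith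
  rcases le_or_gt (X : ℝ) (T ^ (ε / 2)) with hA | hB
  · have h2 : (X : ℝ) ^ 2 ≤ T ^ ε := by
      calc (X : ℝ) ^ 2 ≤ (T ^ (ε / 2)) ^ 2 := pow_le_pow_left₀ hX0.le hA 2
        _ = T ^ ε := by
          rw [← Real.rpow_natCast, ← Real.rpow_mul hT0.le]
          congr 1; push_cast; ring
    calc F ≤ (X : ℝ) ^ 2 := hFt
      _ ≤ T ^ ε := h2
      _ = 1 * T ^ ε * 1 := by ring
      _ ≤ (2 * C) * T ^ ε * X := by gcongr; linarith
      _ ≤ _ := by gcongr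
  rcases lt_or_ge T ((X : ℝ) ^ 2) with hk0 | hk0
  · have hM1 : 1 ≤ M := by omega
    have h1 := hC 1 le_rfl hM1 (by simpa using hX2T)
    simp only [pow_one] at h1
    calc F ≤ C * T ^ ε * ((T + (X : ℝ) ^ 2) / σ) := h1
      _ ≤ C * T ^ ε * (((X : ℝ) ^ 2 + (X : ℝ) ^ 2) / σ) := by gcongr
      _ = (2 * C) * T ^ ε * ((X : ℝ) ^ 2 / σ) := by ring
      _ ≤ _ := by gcongr
  · have hT1 : 1 < T := by
      by_contra h
      have hT' : T = 1 := le_antisymm (not_lt.1 h) hT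
      rw [hT', Real.one_rpow] at hB
      rw [hT'] at hk0
      have : (1 : ℝ) < (X : ℝ) ^ 2 := one_lt_pow₀ hB (by omega)
      linarith
    have hX1r : (1 : ℝ) < X := lt_of_le_of_lt (Real.one_le_rpow hT (by positivity)) hB
    have hX1 : 1 < X := by exact_mod_cast hX1r
    have hX2 : 1 < X ^ 2 := Nat.one_lt_pow (by norm_num) hX1
    set k : ℕ := Nat.log (X ^ 2) ⌊T⌋₊ with hk
    have hfl : ⌊T⌋₊ ≠ 0 := by
      have : 0 < ⌊T⌋₊ := Nat.floor_pos.2 hT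
      omega
    have hXk : (X : ℝ) ^ (2 * k) ≤ T := by
      have h1 := Nat.pow_log_le_self (X ^ 2) hfl
      rw [← hk] at h1
      have h2 : (((X ^ 2) ^ k : ℕ) : ℝ) ≤ (⌊T⌋₊ : ℝ) := by exact_mod_cast h1
      have h3 := Nat.floor_le hT0.le
      push_cast at h2
      rw [← pow_mul] at h2
      linarith
    have hXk1 : T < (X : ℝ) ^ (2 * k + 2) := by
      have h1 := Nat.lt_pow_succ_log_self hX2 ⌊T⌋₊
      rw [← hk, Nat.floor_lt hT0.le] at h1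
      push_cast at h1
      rw [← pow_mul] at h1
      refine h1.trans_le (le_of_eq ?_)
      congr 1
    have hk1 : 1 ≤ k := by
      by_contra h
      have h0 : k = 0 := by omega
      rw [h0] at hXk1
      have : (X : ℝ) ^ (2 * 0 + 2) = (X : ℝ) ^ 2 := by norm_num
      rw [this] at hXk1
      linarith
    have hkε : (k : ℝ) ≤ 1 / ε := by
      have h1 : (T ^ (ε / 2)) ^ (2 * k) ≤ T :=
        (pow_le_pow_left₀ (by positivity) hB.le _).trans hXk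
      rw [← Real.rpow_natCast, ← Real.rpow_mul hT0.le] at h1
      have h2 : ε / 2 * ((2 * k : ℕ) : ℝ) ≤ 1 := by
        by_contra h3
        push Not at h3
        have h4 := Real.rpow_lt_rpow_of_exponent_lt hT1 h3
        rw [Real.rpow_one] at h4
        linarith
      push_cast at h2
      rw [le_div_iff₀ hε]
      linarith
    have hkM : k + 1 ≤ M := by
      rw [hM]
      have : (k : ℝ) ≤ (⌈1 / ε⌉₊ : ℝ) := hkε.trans (Nat.le_ceil _)
      have : k ≤ ⌈1 / ε⌉₊ := by exact_mod_cast this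
      omega
    have hXk2 : (X : ℝ) ^ (k + 1) ≤ 2 * T := by
      have : (X : ℝ) ^ (k + 1) ≤ (X : ℝ) ^ (2 * k) := pow_le_pow_right₀ hXr (by omega)
      linarith
    have hXk3 : (X : ℝ) ^ k ≤ 2 * T := by
      have : (X : ℝ) ^ k ≤ (X : ℝ) ^ (2 * k) := pow_le_pow_right₀ hXr (by omega)
      linarith
    have key1 := hC k hk1 (by omega) hXk3
    have key2 := hC (k + 1) (by omega) hkM hXk2
    obtain ⟨B, hB'⟩ : ∃ B : ℝ, B = 2 * C * T ^ ε := ⟨_, rfl⟩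
    have hB1 : 1 ≤ B := by rw [hB']; nlinarith
    have hB0 : 0 < B := by linarith
    -- the two estimates
    have f1 : F ^ k ≤ B * (T / σ) := by
      calc F ^ k ≤ C * T ^ ε * ((T + ((X : ℝ) ^ k) ^ 2) / σ) := key1
        _ ≤ C * T ^ ε * ((T + T) / σ) := by
            have : ((X : ℝ) ^ k) ^ 2 ≤ T := by
              rw [← pow_mul, mul_comm]; exact hXk
            gcongr
        _ = _ := by rw [hB']; ring
    have f2 : F ^ (k + 1) ≤ B * ((X : ℝ) ^ (2 * k + 2) / σ) := by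
      calc F ^ (k + 1) ≤ C * T ^ ε * ((T + ((X : ℝ) ^ (k + 1)) ^ 2) / σ) := key2
        _ ≤ C * T ^ ε * (((X : ℝ) ^ (2 * k + 2) + (X : ℝ) ^ (2 * k + 2)) / σ) := by
            have : ((X : ℝ) ^ (k + 1)) ^ 2 = (X : ℝ) ^ (2 * k + 2) := by
              rw [← pow_mul]; congr 1; ring
            rw [this]
            gcongr
        _ = _ := by rw [hB']; ring
    -- combine
    clear_value k
    obtain ⟨Φ, hΦ⟩ : ∃ Φ : ℝ, Φ = F / (X * B) := ⟨_, rfl⟩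
    have hΦ0 : 0 ≤ Φ := by rw [hΦ]; positivity
    have f3 : Φ ^ (2 * (k * (k + 1))) ≤ T ^ (k + 1) / σ ^ (2 * k + 1) := by
      have e1 : F ^ (2 * (k * (k + 1))) = (F ^ k) ^ (k + 1) * (F ^ (k + 1)) ^ k := by
        rw [← pow_mul, ← pow_mul, ← pow_add]
        congr 1; ring
      have h1 : F ^ (2 * (k * (k + 1))) ≤
          (B * (T / σ)) ^ (k + 1) * (B * ((X : ℝ) ^ (2 * k + 2) / σ)) ^ k := by
        rw [e1]
        exact mul_le_mul (pow_le_pow_left₀ (by positivity) f1 _)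
          (pow_le_pow_left₀ (by positivity) f2 _) (by positivity) (by positivity)
      have h2 : (B * (T / σ)) ^ (k + 1) * (B * ((X : ℝ) ^ (2 * k + 2) / σ)) ^ k =
          B ^ (2 * k + 1) * (X : ℝ) ^ (2 * (k * (k + 1))) * (T ^ (k + 1) / σ ^ (2 * k + 1)) := by
        have e2 : ((X : ℝ) ^ (2 * k + 2)) ^ k = (X : ℝ) ^ (2 * (k * (k + 1))) := by
          rw [← pow_mul]; congr 1; ring
        rw [mul_pow, mul_pow, div_pow, div_pow, e2]
        have e3 : σ ^ (2 * k + 1) = σ ^ (k + 1) * σ ^ k := by rw [← pow_add]; congr 1; ring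
        have e4 : B ^ (2 * k + 1) = B ^ (k + 1) * B ^ k := by rw [← pow_add]; congr 1; ring
        rw [e3, e4]
        field_simp
      have h3 : B ^ (2 * k + 1) ≤ B ^ (2 * (k * (k + 1))) := by
        apply pow_le_pow_right₀ hB1
        nlinarith
      have hP0 : 0 ≤ T ^ (k + 1) / σ ^ (2 * k + 1) := by positivity
      rw [hΦ, div_pow, div_le_iff₀ (by positivity), mul_pow]
      calc F ^ (2 * (k * (k + 1))) ≤ B ^ (2 * k + 1) * (X : ℝ) ^ (2 * (k * (k + 1))) *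
            (T ^ (k + 1) / σ ^ (2 * k + 1)) := h1.trans h2.le
        _ ≤ B ^ (2 * (k * (k + 1))) * (X : ℝ) ^ (2 * (k * (k + 1))) *
            (T ^ (k + 1) / σ ^ (2 * k + 1)) := by gcongr
        _ = _ := by ring
    have hkk : 2 * (k * (k + 1)) ≠ 0 := by positivity
    refine (le_of_eq (show F = Φ * (X * B) by rw [hΦ]; field_simp)).trans ?_
    rcases le_or_gt (T ^ (k + 1)) (σ ^ (2 * k + 1)) with hP | hP
    · have h1 : T ^ (k + 1) / σ ^ (2 * k + 1) ≤ 1 := (div_le_one (by positivity)).2 hP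
      have h2 : Φ ≤ 1 := by
        by_contra h
        push Not at h
        have := one_lt_pow₀ h hkk
        linarith
      calc Φ * (X * B) ≤ 1 * (X * B) := by gcongr
        _ = B * X := by ring
        _ ≤ B * R := by gcongr
        _ = _ := by rw [hB']
    · have h1 := expo hσ hT k hk1 hP.le
      have h2 : (Φ ^ 4) ^ (k * (k + 1)) ≤ (T ^ 2 / σ ^ 3) ^ (k * (k + 1)) := by
        refine le_trans (le_of_eq ?_) ((pow_le_pow_left₀ (by positivity) f3 2).trans h1)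
        rw [← pow_mul, ← pow_mul]
        congr 1; ring
      have h3 : Φ ^ 4 ≤ T ^ 2 / σ ^ 3 :=
        (pow_le_pow_iff_left₀ (by positivity) (by positivity) (by positivity)).1 h2
      set Q : ℝ := T ^ (1 / 2 : ℝ) / σ ^ (3 / 4 : ℝ) with hQ
      have hQ4 : Q ^ 4 = T ^ 2 / σ ^ 3 := by
        rw [hQ, div_pow, ← Real.rpow_natCast, ← Real.rpow_natCast, ← Real.rpow_mul hT0.le,
          ← Real.rpow_mul hσ0.le]
        norm_num
      have h4 : Φ ≤ Q := by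
        rw [← hQ4] at h3
        exact (pow_le_pow_iff_left₀ hΦ0 (by positivity) (by norm_num)).1 h3
      calc Φ * (X * B) ≤ Q * (X * B) := by gcongr
        _ = B * (Q * X) := by ring
        _ ≤ B * R := by gcongr
        _ = _ := by rw [hB']

/-- **Heath-Brown's inequality for the rationals close to one and well spaced points** -/
theorem F3_near {ε : ℝ} (hε : 0 < ε) : ∃ C : ℝ, 1 ≤ C ∧ ∀ (κ T Δ : ℝ), 1 ≤ κ → 1 ≤ Δ → Δ ≤ T →
    ∀ (S : Finset ℝ) (x : ℝ), (∀ t ∈ S, ∀ u ∈ S, t ≠ u → Δ ≤ |t - u|) →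
    (∀ t ∈ S, x ≤ t ∧ t ≤ x + T) → ∀ (X : ℕ), 1 ≤ X → (X : ℝ) ≤ 2 * T →
    SN S κ Δ X ≤ C * κ ^ 2 * T ^ ε * RN S.card T Δ X := by
  obtain ⟨C, hC1, hC⟩ := SB_near hε (⌈1 / ε⌉₊ + 1)
  refine ⟨2 * C, by linarith, ?_⟩
  intro κ T Δ hκ hΔ hΔT S x hS hSx X hX hX2T
  have hκ2 : 1 ≤ κ ^ 2 := one_le_pow₀ hκ
  have hT : 1 ≤ T := hΔ.trans hΔT
  have hT0 : 0 < T := by linarith
  have hΔ0 : 0 < Δ := by linarith
  rcases S.eq_empty_or_nonempty with he | hne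
  · have : SN S κ Δ X = 0 := by
      unfold SN; rw [he]; simp
    rw [this]
    have := RN_nonneg (s := (S.card : ℝ)) (T := T) (Δ := Δ) (X := X) (Nat.cast_nonneg _) hT0.le hΔ0.le
      (Nat.cast_nonneg _)
    positivity
  set s : ℝ := (S.card : ℝ) with hs
  have hs1 : 1 ≤ s := by
    rw [hs]; exact_mod_cast hne.card_pos
  have hs0 : 0 < s := by linarith
  have hσ : 1 ≤ s * Δ := by nlinarith
  have h1 := combine (σ := s * Δ) (F := SN S κ Δ X / s ^ 2) (X := X) hε (C := C * κ ^ 2) (by nlinarith) hT hσ hX hX2T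
    (div_nonneg (SN_nonneg _ _ _ _) (by positivity))
    (by
      rw [div_le_iff₀ (by positivity)]
      exact SN_trivial S κ Δ X)
    (by
      intro m hm hmM hXm
      have h2 := hC κ T Δ hκ hΔ hΔT S x hS hSx X m hX hm hmM hXm
      rw [← hs] at h2
      rw [div_pow, div_le_iff₀ (by positivity)]
      refine h2.trans (le_of_eq ?_)
      have e : (s ^ 2) ^ m = s ^ (2 * m - 1) * s := by
        rw [← pow_mul, ← pow_succ]
        congr 1
        omega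
      rw [e]
      field_simp)
  rw [div_le_iff₀ (by positivity)] at h1
  refine h1.trans (le_of_eq ?_)
  unfold RN
  ring

end Pool.Agent.H73.HB
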