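import Pool.Agent.H73.HB.B

/-!
# Double sums over progressions
-/

set_option autoImplicit false

namespace Pool.Agent.H73.HB

open Finset MeasureTheory Pool.Agent.Y766 Pool.Agent.Y766.PS Pool.Agent.X108.HB

/-- the height -/
def ht (r : ℚ) : ℕ := max r.num.natAbs r.den

theorem ht_pos (r : ℚ) : 1 ≤ ht r := le_max_of_le_right r.den_pos

theorem red {x y : ℕ} (hx : 1 ≤ x) (hy : 1 ≤ y) :
    x = Nat.gcd x y * ((x : ℚ) / y).num.natAbs ∧ y = Nat.gcd x y * ((x : ℚ) / y).den := by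
  have hg0 : 0 < Nat.gcd x y := Nat.gcd_pos_of_pos_left _ hx
  obtain ⟨a, ha⟩ := Nat.gcd_dvd_left x y
  obtain ⟨b, hb⟩ := Nat.gcd_dvd_right x y
  set g := Nat.gcd x y with hg
  have ha0 : 1 ≤ a := Nat.pos_of_ne_zero (by rintro rfl; omega)
  have hb0 : 1 ≤ b := Nat.pos_of_ne_zero (by rintro rfl; omega)
  have hcop : Nat.Coprime a b := by
    have h6 : g * Nat.gcd a b = g * 1 := by
      rw [← Nat.gcd_mul_left, ← ha, ← hb, mul_one]
    exact Nat.eq_of_mul_eq_mul_left hg0 h6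
  have e : (x : ℚ) / y = (a : ℚ) / b := by
    rw [ha, hb]
    push_cast
    have : (g : ℚ) ≠ 0 := by exact_mod_cast hg0.ne'
    rw [mul_div_mul_left _ _ this]
  obtain ⟨e1, e2⟩ := nd_of_coprime ha0 hb0 hcop
  rw [e, e1, e2]
  exact ⟨ha, hb⟩

/-- the number of pairs of members of a progression with a given quotient -/
theorem fibre_card {A : Finset ℕ} (hA1 : ∀ n ∈ A, 1 ≤ n) {m d L : ℕ}
    (hA : ∀ n ∈ A, ∃ j < L, n = m + d * j) (r : ℚ) :
    ((A ×ˢ A).filter (fun p => (p.1 : ℚ) / p.2 = r)).card ≤ L / ht r + 1 := by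
  classical
  set P := (A ×ˢ A).filter (fun p => (p.1 : ℚ) / p.2 = r) with hP
  set h := ht r with hh
  have hh1 : 1 ≤ h := ht_pos r
  have hmem : ∀ p ∈ P, p.1 ∈ A ∧ p.2 ∈ A ∧ p.1 = Nat.gcd p.1 p.2 * r.num.natAbs ∧
      p.2 = Nat.gcd p.1 p.2 * r.den := by
    intro p hp
    rw [hP, mem_filter, mem_product] at hp
    obtain ⟨⟨h1, h2⟩, h3⟩ := hp
    have h4 := red (hA1 _ h1) (hA1 _ h2)
    rw [h3] at h4
    exact ⟨h1, h2, h4.1, h4.2⟩
  have hmax : ∀ p ∈ P, ∃ j < L, Nat.gcd p.1 p.2 * h = m + d * j := by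
    intro p hp
    obtain ⟨h1, h2, h3, h4⟩ := hmem p hp
    rcases le_total r.num.natAbs r.den with h5 | h5
    · have : h = r.den := by rw [hh]; exact max_eq_right h5
      rw [this, ← h4]
      exact hA _ h2
    · have : h = r.num.natAbs := by rw [hh]; exact max_eq_left h5
      rw [this, ← h3]
      exact hA _ h1
  choose! j hj1 hj2 using hmax
  have hcop : Nat.Coprime r.num.natAbs r.den := r.reduced
  -- the common divisors differ by multiples of `d`
  have hdiff : ∀ p ∈ P, ∀ q ∈ P, Nat.gcd p.1 p.2 ≤ Nat.gcd q.1 q.2 →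
      d ∣ Nat.gcd q.1 q.2 - Nat.gcd p.1 p.2 := by
    intro p hp q hq hpq
    obtain ⟨h1, h2, h3, h4⟩ := hmem p hp
    obtain ⟨h1', h2', h3', h4'⟩ := hmem q hq
    set g := Nat.gcd p.1 p.2
    set g' := Nat.gcd q.1 q.2
    have k : ∀ x ∈ A, ∀ y ∈ A, d ∣ y - x := by
      intro x hx y hy
      obtain ⟨a, _, ha⟩ := hA x hx
      obtain ⟨b, _, hb⟩ := hA y hy
      rw [ha, hb, Nat.add_sub_add_left, ← Nat.mul_sub]
      exact dvd_mul_right _ _
    have k1 : d ∣ (g' - g) * r.num.natAbs := by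
      rw [Nat.sub_mul, ← h3, ← h3']
      exact k _ h1 _ h1'
    have k2 : d ∣ (g' - g) * r.den := by
      rw [Nat.sub_mul, ← h4, ← h4']
      exact k _ h2 _ h2'
    have k3 := Nat.dvd_gcd k1 k2
    rw [Nat.gcd_mul_left, hcop, mul_one] at k3
    exact k3
  have hlt : ∀ p ∈ P, ∀ q ∈ P, Nat.gcd p.1 p.2 < Nat.gcd q.1 q.2 → j p / h < j q / h := by
    intro p hp q hq hpq
    obtain ⟨e, he⟩ := hdiff p hp q hq hpq.le
    have e1 := hj2 p hp
    have e2 := hj2 q hq
    set g := Nat.gcd p.1 p.2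
    set g' := Nat.gcd q.1 q.2
    have hd : 0 < d := by
      rcases Nat.eq_zero_or_pos d with hd | hd
      · rw [hd, zero_mul] at he
        omega
      · exact hd
    have he1 : 1 ≤ e := by
      rcases Nat.eq_zero_or_pos e with h0 | h0
      · rw [h0, mul_zero] at he
        omega
      · exact h0
    have hg' : g' = g + d * e := by omega
    have e3 : d * (j p + e * h) = d * j q := by
      have : (g + d * e) * h = m + d * j q := by rw [← hg']; exact e2
      have h5 : g * h + d * (e * h) = m + d * j q := by rw [← this]; ring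
      rw [e1] at h5
      rw [mul_add]
      omega
    have e4 : j p + e * h = j q := Nat.eq_of_mul_eq_mul_left hd e3
    have e5 : j p / h + e = j q / h := by
      rw [← e4, Nat.add_mul_div_right _ _ hh1]
    omega
  have hinj : Set.InjOn (fun p => j p / h) (P : Set (ℕ × ℕ)) := by
    intro p hp q hq hpq
    simp only at hpq
    have hgg : Nat.gcd p.1 p.2 = Nat.gcd q.1 q.2 := by
      rcases lt_trichotomy (Nat.gcd p.1 p.2) (Nat.gcd q.1 q.2) with h1 | h1 | h1
      · exact absurd hpq (hlt p hp q hq h1).ne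
      · exact h1
      · exact absurd hpq (hlt q hq p hp h1).ne'
    obtain ⟨_, _, h3, h4⟩ := hmem p hp
    obtain ⟨_, _, h3', h4'⟩ := hmem q hq
    rw [hgg] at h3 h4
    exact Prod.ext (h3.trans h3'.symm) (h4.trans h4'.symm)
  have hmaps : Set.MapsTo (fun p => j p / h) (P : Set (ℕ × ℕ)) (range (L / h + 1)) := by
    intro p hp
    simp only [coe_range, Set.mem_Iio, Nat.lt_succ_iff]
    exact Nat.div_le_div_right (hj1 p hp).le
  have := card_le_card_of_injOn _ hmaps hinj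
  rwa [card_range] at this

/-- the double sum over a part of a progression, by quotients -/
theorem ZZ_fibre {N : ℕ} {A : Finset ℕ} (hAN : A ⊆ Icc 1 N) {m d L : ℕ}
    (hA : ∀ n ∈ A, ∃ j < L, n = m + d * j) {κ Δ : ℝ}
    (hn : ∀ n ∈ A, ∀ n' ∈ A, Δ * |Real.log n - Real.log n'| ≤ κ) (S : Finset ℝ) :
    ZZ A S ≤ 2 * L / N * ∑ g ∈ Icc 1 N, SN S κ Δ (N / g) + SN S κ Δ N := by
  classical
  set φ : ℚ → ℝ := fun r => ‖∑ t ∈ S, ee t r‖ ^ 2 with hφ
  have hφ0 : ∀ r, 0 ≤ φ r := fun r => pow_nonneg (norm_nonneg _) 2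
  have hmem : ∀ n ∈ A, 1 ≤ n ∧ n ≤ N := fun n hn => mem_Icc.1 (hAN hn)
  set F := (FX N).filter (Near κ Δ) with hF
  have hmaps : ∀ p ∈ A ×ˢ A, (p.1 : ℚ) / p.2 ∈ F := by
    intro p hp
    rw [mem_product] at hp
    obtain ⟨h1, h2⟩ := hmem _ hp.1
    obtain ⟨h3, h4⟩ := hmem _ hp.2
    have q1 : (0 : ℚ) < p.1 := by exact_mod_cast h1
    have q2 : (0 : ℚ) < p.2 := by exact_mod_cast h3
    obtain ⟨k1, k2⟩ := red h1 h3
    have hg : 0 < Nat.gcd p.1 p.2 := Nat.gcd_pos_of_pos_left _ h1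
    rw [hF, mem_filter, mem_FX]
    refine ⟨⟨div_pos q1 q2, ?_, ?_⟩, ?_⟩
    · exact ((Nat.le_mul_of_pos_left _ hg).trans k1.symm.le).trans h2
    · exact ((Nat.le_mul_of_pos_left _ hg).trans k2.symm.le).trans h4
    · unfold Near
      have r1 : (0 : ℝ) < p.1 := by exact_mod_cast h1
      have r2 : (0 : ℝ) < p.2 := by exact_mod_cast h3
      push_cast
      rw [Real.log_div r1.ne' r2.ne']
      exact hn _ hp.1 _ hp.2
  have e0 : ZZ A S = ∑ p ∈ A ×ˢ A, φ ((p.1 : ℚ) / p.2) := by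
    unfold ZZ
    rw [← sum_product']
  rw [e0, ← sum_fiberwise_of_maps_to hmaps]
  have h1 : ∀ r ∈ F, ∑ p ∈ (A ×ˢ A).filter (fun p => (p.1 : ℚ) / p.2 = r), φ ((p.1 : ℚ) / p.2) ≤
      2 * L / N * (((Icc 1 N).filter (fun g => r ∈ FX (N / g))).card * φ r) + φ r := by
    intro r hr
    rw [hF, mem_filter] at hr
    obtain ⟨q1, q2, q3⟩ := mem_FX.1 hr.1
    have hh1 : 1 ≤ ht r := ht_pos r
    have hhN : ht r ≤ N := max_le q2 q3
    have e1 : ∑ p ∈ (A ×ˢ A).filter (fun p => (p.1 : ℚ) / p.2 = r), φ ((p.1 : ℚ) / p.2) =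
        ((A ×ˢ A).filter (fun p => (p.1 : ℚ) / p.2 = r)).card * φ r := by
      rw [← nsmul_eq_mul, ← sum_const]
      refine sum_congr rfl fun p hp => ?_
      rw [(mem_filter.1 hp).2]
    rw [e1]
    have e2 : (Icc 1 N).filter (fun g => r ∈ FX (N / g)) = Icc 1 (N / ht r) := by
      ext g
      rw [mem_filter, mem_Icc, mem_Icc, mem_FX]
      constructor
      · rintro ⟨⟨g1, g2⟩, _, g3, g4⟩
        refine ⟨g1, ?_⟩
        have h5 : ht r ≤ N / g := max_le g3 g4
        rw [Nat.le_div_iff_mul_le g1] at h5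
        rw [Nat.le_div_iff_mul_le hh1, mul_comm]
        exact h5
      · rintro ⟨g1, g2⟩
        rw [Nat.le_div_iff_mul_le hh1] at g2
        have g3 : ht r ≤ N / g := by
          rw [Nat.le_div_iff_mul_le g1, mul_comm]
          exact g2
        refine ⟨⟨g1, ?_⟩, q1, (le_max_left _ _).trans g3, (le_max_right _ _).trans g3⟩
        calc g = g * 1 := (mul_one g).symm
          _ ≤ g * ht r := Nat.mul_le_mul_left _ hh1
          _ ≤ N := g2
    rw [e2, Nat.card_Icc, Nat.add_sub_cancel]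
    have hc := fibre_card (fun n hn => (hmem n hn).1) hA r
    have hc' : (((A ×ˢ A).filter (fun p => (p.1 : ℚ) / p.2 = r)).card : ℝ) ≤
        ((L / ht r : ℕ) : ℝ) + 1 := by exact_mod_cast hc
    have hhr : (0 : ℝ) < ht r := by exact_mod_cast hh1
    have hN1 : 1 ≤ N := hh1.trans hhN
    have hNr : (0 : ℝ) < N := by exact_mod_cast hN1
    have h3 : ((L / ht r : ℕ) : ℝ) ≤ (L : ℝ) / ht r := Nat.cast_div_le
    have h4 : (N : ℝ) / ht r ≤ 2 * ((N / ht r : ℕ) : ℝ) := by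
      have h5 : 1 ≤ N / ht r := (Nat.one_le_div_iff (by omega)).2 hhN
      have h6 : N < ht r * (N / ht r + 1) := Nat.lt_mul_div_succ N (by omega)
      have h7 : N ≤ ht r * (2 * (N / ht r)) := by
        refine h6.le.trans (Nat.mul_le_mul_left _ (by omega))
      have h8 : (N : ℝ) ≤ ht r * (2 * ((N / ht r : ℕ) : ℝ)) := by exact_mod_cast h7
      rw [div_le_iff₀ hhr]
      linarith
    have h5 : (L : ℝ) / ht r ≤ 2 * L / N * ((N / ht r : ℕ) : ℝ) := by
      have hL0 : (0 : ℝ) ≤ L := Nat.cast_nonneg _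
      calc (L : ℝ) / ht r = L / N * (N / ht r) := by field_simp
        _ ≤ L / N * (2 * ((N / ht r : ℕ) : ℝ)) := by gcongr
        _ = _ := by ring
    calc (((A ×ˢ A).filter (fun p => (p.1 : ℚ) / p.2 = r)).card : ℝ) * φ r
        ≤ (2 * L / N * ((N / ht r : ℕ) : ℝ) + 1) * φ r := by
          apply mul_le_mul_of_nonneg_right _ (hφ0 r)
          linarith
      _ = _ := by ring
  refine (sum_le_sum h1).trans (le_of_eq ?_)
  rw [sum_add_distrib, ← mul_sum]
  have e3 : ∑ r ∈ F, (((Icc 1 N).filter (fun g => r ∈ FX (N / g))).card : ℝ) * φ r =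
      ∑ g ∈ Icc 1 N, SN S κ Δ (N / g) := by
    have e4 : ∀ r ∈ F, (((Icc 1 N).filter (fun g => r ∈ FX (N / g))).card : ℝ) * φ r =
        ∑ g ∈ Icc 1 N, if r ∈ FX (N / g) then φ r else 0 := by
      intro r _
      rw [← nsmul_eq_mul, ← sum_const, sum_filter]
    rw [sum_congr rfl e4, sum_comm]
    refine sum_congr rfl fun g hg => ?_
    unfold SN
    rw [← sum_filter]
    apply sum_congr _ fun _ _ => rfl
    ext r
    rw [hF, mem_filter, mem_filter, mem_filter]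
    constructor
    · rintro ⟨⟨_, h2⟩, h3⟩
      exact ⟨h3, h2⟩
    · rintro ⟨h2, h3⟩
      refine ⟨⟨?_, h3⟩, h2⟩
      rw [mem_FX] at h2 ⊢
      exact ⟨h2.1, h2.2.1.trans (Nat.div_le_self _ _), h2.2.2.trans (Nat.div_le_self _ _)⟩
  rw [e3]
  rfl

end Pool.Agent.H73.HB
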