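import Pool.Agent.H73.HB.C

/-!
# The double sum over a part of a progression, and the bilinear argument
-/

set_option autoImplicit false

namespace Pool.Agent.H73.HB

open Finset MeasureTheory Pool.Agent.Y766 Pool.Agent.Y766.PS Pool.Agent.X108.HB

/-- the size of the double sum -/
noncomputable def FF (N L : ℕ) (T Δ s : ℝ) : ℝ :=
  (N : ℝ) ^ 2 / Δ + L * s + L * √T * s ^ (1 / 4 : ℝ) / Δ ^ (3 / 4 : ℝ)

theorem FF_nonneg {N L : ℕ} {T Δ s : ℝ} (hΔ : 0 ≤ Δ) (hs : 0 ≤ s) : 0 ≤ FF N L T Δ s := by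
  unfold FF; positivity

theorem quarter {s M : ℝ} (hs : 0 ≤ s) (hM : 0 ≤ M) :
    s ^ (1 / 4 : ℝ) * M ^ (3 / 4 : ℝ) ≤ s + M := by
  have := Real.geom_mean_le_arith_mean2_weighted (w₁ := 1 / 4) (w₂ := 3 / 4) (by norm_num)
    (by norm_num) hs hM (by norm_num)
  linarith

theorem ZZ_near {ε : ℝ} (hε : 0 < ε) : ∃ C : ℝ, 1 ≤ C ∧ ∀ (N : ℕ) (T Δ κ : ℝ), 1 ≤ N → 0 ≤ T →
    T ≤ (N : ℝ) ^ 2 → 1 ≤ Δ → Δ ≤ N → 1 ≤ κ → ∀ (A : Finset ℕ), A ⊆ Icc 1 N → ∀ (m d L : ℕ), L ≤ N →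
    (∀ n ∈ A, ∃ j < L, n = m + d * j) →
    (∀ n ∈ A, ∀ n' ∈ A, Δ * |Real.log n - Real.log n'| ≤ κ) →
    ∀ (S : Finset ℝ) (x : ℝ), (∀ t ∈ S, ∀ u ∈ S, t ≠ u → Δ ≤ |t - u|) →
    (∀ t ∈ S, x ≤ t ∧ t ≤ x + (4 * T + N)) →
    ZZ A S ≤ C * κ ^ 2 * (N : ℝ) ^ ε * (S.card * FF N L T Δ S.card) := by
  obtain ⟨C1, hC1, h1⟩ := F3_near (ε := ε / 4) (by positivity)
  obtain ⟨C3, hC3, h3⟩ := SB_near (ε := ε / 4) (by positivity) 1
  obtain ⟨C2, hC2, h2⟩ := log_absorb (ε := ε / 2) (by positivity)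
  have h5ε : (1 : ℝ) ≤ 5 ^ (ε / 4) := Real.one_le_rpow (by norm_num) (by positivity)
  refine ⟨12 * C1 * C2 * 5 ^ (ε / 4) + 6 * C3 * 5 ^ (ε / 4), ?_, ?_⟩
  · have : 1 ≤ C1 * C2 := by nlinarith
    have : 1 ≤ C1 * C2 * 5 ^ (ε / 4) := by nlinarith
    have : 0 ≤ C3 * 5 ^ (ε / 4) := by positivity
    nlinarith
  intro N T Δ κ hN hT0 hTN hΔ hΔN hκ A hAN m d L hLN hA hn S x hS hSx
  have hNr : (1 : ℝ) ≤ N := by exact_mod_cast hN
  have hN0 : (0 : ℝ) < N := by linarith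
  have hΔ0 : 0 < Δ := by linarith
  have hLr : (L : ℝ) ≤ N := by exact_mod_cast hLN
  have hL0 : (0 : ℝ) ≤ L := Nat.cast_nonneg _
  rcases S.eq_empty_or_nonempty with hSe | hSn
  · subst hSe
    simp [ZZ]
  have hs : (1 : ℝ) ≤ S.card := by exact_mod_cast hSn.card_pos
  set s : ℝ := (S.card : ℝ) with hs'
  have hs0 : (0 : ℝ) < s := by linarith
  have hκ2 : 1 ≤ κ ^ 2 := one_le_pow₀ hκ
  set T' : ℝ := 4 * T + N with hT'
  have hT'1 : 1 ≤ T' := by rw [hT']; linarith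
  have hT'0 : 0 < T' := by linarith
  have hΔT' : Δ ≤ T' := by rw [hT']; linarith
  have hT'N : T' ≤ 5 * (N : ℝ) ^ 2 := by rw [hT']; nlinarith
  have hTe : T' ^ (ε / 4) ≤ 5 ^ (ε / 4) * (N : ℝ) ^ (ε / 2) := by
    calc T' ^ (ε / 4) ≤ (5 * (N : ℝ) ^ 2) ^ (ε / 4) :=
          Real.rpow_le_rpow (by linarith) hT'N (by positivity)
      _ = 5 ^ (ε / 4) * ((N : ℝ) ^ (2 : ℝ)) ^ (ε / 4) := by
          rw [Real.mul_rpow (by norm_num) (by positivity), Real.rpow_two]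
      _ = _ := by
          rw [← Real.rpow_mul hN0.le]
          congr 2
          ring
  have hNε : (N : ℝ) ^ (ε / 2) ≤ (N : ℝ) ^ ε := Real.rpow_le_rpow_of_exponent_le hNr (by linarith)
  have hNε0 : 0 < (N : ℝ) ^ ε := by positivity
  have hNe2 : 0 < (N : ℝ) ^ (ε / 2) := by positivity
  -- the large part of the divisor sum
  have hfib := ZZ_fibre hAN hA hn S
  set Q : ℝ := T' ^ (1 / 2 : ℝ) / (s * Δ) ^ (3 / 4 : ℝ) with hQ
  have hQ0 : 0 ≤ Q := by positivity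
  have hRN : ∀ X : ℝ, RN s T' Δ X = s ^ 2 * (1 + Q) * X + s / Δ * X ^ 2 := by
    intro X
    unfold RN
    rw [← hQ]
    field_simp
    ring
  have hg : ∀ g ∈ Icc 1 N, SN S κ Δ (N / g) ≤
      C1 * κ ^ 2 * T' ^ (ε / 4) * (s ^ 2 * (1 + Q) * (((N / g : ℕ) : ℝ)) ^ (1 : ℝ) +
        s / Δ * (((N / g : ℕ) : ℝ)) ^ (2 : ℝ)) := by
    intro g hg
    rw [mem_Icc] at hg
    have hNg1 : 1 ≤ N / g := (Nat.one_le_div_iff hg.1).2 hg.2
    have hNg2 : N / g ≤ N := Nat.div_le_self N g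
    have hNg2r : ((N / g : ℕ) : ℝ) ≤ N := by exact_mod_cast hNg2
    have h4 := h1 κ T' Δ hκ hΔ hΔT' S x hS hSx (N / g) hNg1 (by rw [hT']; linarith)
    rw [← hs', hRN] at h4
    rw [Real.rpow_one, Real.rpow_two]
    exact h4
  have hsum : ∑ g ∈ Icc 1 N, SN S κ Δ (N / g) ≤
      C1 * κ ^ 2 * T' ^ (ε / 4) * (1 + Real.log N) * (s ^ 2 * (1 + Q) * N + s / Δ * (N : ℝ) ^ 2) := by
    calc ∑ g ∈ Icc 1 N, SN S κ Δ (N / g) ≤ _ := sum_le_sum hg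
      _ = C1 * κ ^ 2 * T' ^ (ε / 4) * (s ^ 2 * (1 + Q) * ∑ g ∈ Icc 1 N, (((N / g : ℕ) : ℝ)) ^ (1 : ℝ) +
          s / Δ * ∑ g ∈ Icc 1 N, (((N / g : ℕ) : ℝ)) ^ (2 : ℝ)) := by
        rw [← mul_sum, sum_add_distrib, ← mul_sum, ← mul_sum]
      _ ≤ C1 * κ ^ 2 * T' ^ (ε / 4) * (s ^ 2 * (1 + Q) * ((N : ℝ) ^ (1 : ℝ) * (1 + Real.log N)) +
          s / Δ * ((N : ℝ) ^ (2 : ℝ) * (1 + Real.log N))) := by
        have k1 := gcd_sum N 1 le_rfl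
        have k2 := gcd_sum N 2 one_le_two
        gcongr
      _ = _ := by rw [Real.rpow_one, Real.rpow_two]; ring
  have hlog0 : 0 ≤ Real.log N := Real.log_nonneg hNr
  have hlog : 1 + Real.log N ≤ C2 * (N : ℝ) ^ (ε / 2) := h2 N hNr
  -- the sizes
  have hQs : L * (s ^ 2 * Q) ≤ 2 * (s * FF N L T Δ s) := by
    have e1 : (s * Δ) ^ (3 / 4 : ℝ) = s ^ (3 / 4 : ℝ) * Δ ^ (3 / 4 : ℝ) :=
      Real.mul_rpow hs0.le hΔ0.le
    have e2 : T' ^ (1 / 2 : ℝ) ≤ 2 * √T + (N : ℝ) ^ (3 / 4 : ℝ) := by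
      have k3 : √(N : ℝ) ≤ (N : ℝ) ^ (3 / 4 : ℝ) := by
        rw [Real.sqrt_eq_rpow]
        exact Real.rpow_le_rpow_of_exponent_le hNr (by norm_num)
      have k4 : T' ^ (1 / 2 : ℝ) ≤ 2 * √T + √(N : ℝ) := by
        rw [← Real.sqrt_eq_rpow, Real.sqrt_le_left (by positivity)]
        have k1 := Real.sq_sqrt hT0
        have k2 := Real.sq_sqrt hN0.le
        have k5 := mul_nonneg (Real.sqrt_nonneg T) (Real.sqrt_nonneg (N : ℝ))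
        rw [hT']
        nlinarith
      linarith
    have e3 : s ^ 2 = s * (s ^ (1 / 4 : ℝ) * s ^ (3 / 4 : ℝ)) := by
      rw [← Real.rpow_add hs0]
      norm_num
      ring
    have hs34 : 0 < s ^ (3 / 4 : ℝ) := by positivity
    have hs14 : 0 < s ^ (1 / 4 : ℝ) := by positivity
    have hΔ34 : 0 < Δ ^ (3 / 4 : ℝ) := by positivity
    have e4 : s ^ 2 * Q = s * (s ^ (1 / 4 : ℝ) * T' ^ (1 / 2 : ℝ) / Δ ^ (3 / 4 : ℝ)) := by
      rw [hQ, e1, e3]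
      field_simp
    have e5 : s ^ (1 / 4 : ℝ) * (N : ℝ) ^ (3 / 4 : ℝ) / Δ ^ (3 / 4 : ℝ) ≤ s + N / Δ := by
      rw [mul_div_assoc, ← Real.div_rpow hN0.le hΔ0.le]
      exact quarter hs0.le (by positivity)
    have e6 : s ^ (1 / 4 : ℝ) * T' ^ (1 / 2 : ℝ) / Δ ^ (3 / 4 : ℝ) ≤
        2 * (√T * s ^ (1 / 4 : ℝ) / Δ ^ (3 / 4 : ℝ)) + (s + N / Δ) := by
      calc _ ≤ s ^ (1 / 4 : ℝ) * (2 * √T + (N : ℝ) ^ (3 / 4 : ℝ)) / Δ ^ (3 / 4 : ℝ) := by gcongr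
        _ = 2 * (√T * s ^ (1 / 4 : ℝ) / Δ ^ (3 / 4 : ℝ)) +
            s ^ (1 / 4 : ℝ) * (N : ℝ) ^ (3 / 4 : ℝ) / Δ ^ (3 / 4 : ℝ) := by ring
        _ ≤ _ := by linarith
    have e7 : L * ((N : ℝ) / Δ) ≤ (N : ℝ) ^ 2 / Δ := by
      rw [← mul_div_assoc]
      apply div_le_div_of_nonneg_right _ hΔ0.le
      nlinarith
    rw [e4]
    calc L * (s * (s ^ (1 / 4 : ℝ) * T' ^ (1 / 2 : ℝ) / Δ ^ (3 / 4 : ℝ)))
        ≤ L * (s * (2 * (√T * s ^ (1 / 4 : ℝ) / Δ ^ (3 / 4 : ℝ)) + (s + N / Δ))) := by gcongr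
      _ = s * (2 * (L * √T * s ^ (1 / 4 : ℝ) / Δ ^ (3 / 4 : ℝ)) + L * s + L * (N / Δ)) := by ring
      _ ≤ s * (2 * (L * √T * s ^ (1 / 4 : ℝ) / Δ ^ (3 / 4 : ℝ)) + 2 * (L * s) +
          2 * ((N : ℝ) ^ 2 / Δ)) := by
          have a1 : 0 ≤ L * s := by positivity
          have a2 : 0 ≤ (N : ℝ) ^ 2 / Δ := by positivity
          apply mul_le_mul_of_nonneg_left _ hs0.le
          linarith
      _ = _ := by unfold FF; ring
  have hmain : 2 * L / N * (s ^ 2 * (1 + Q) * N + s / Δ * (N : ℝ) ^ 2) ≤ 12 * (s * FF N L T Δ s) := by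
    have e1 : 2 * L / N * (s ^ 2 * (1 + Q) * N + s / Δ * (N : ℝ) ^ 2) =
        2 * (s * (L * s)) + 2 * (L * (s ^ 2 * Q)) + 2 * (s * (L * N / Δ)) := by
      field_simp
    have e2 : L * (N : ℝ) / Δ ≤ (N : ℝ) ^ 2 / Δ := by
      apply div_le_div_of_nonneg_right _ hΔ0.le
      nlinarith
    have e3 : L * s ≤ FF N L T Δ s := by
      unfold FF
      have a1 : 0 ≤ (N : ℝ) ^ 2 / Δ := by positivity
      have a2 : 0 ≤ L * √T * s ^ (1 / 4 : ℝ) / Δ ^ (3 / 4 : ℝ) := by positivity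
      linarith
    have e4 : (N : ℝ) ^ 2 / Δ ≤ FF N L T Δ s := by
      unfold FF
      have a1 : 0 ≤ L * s := by positivity
      have a2 : 0 ≤ L * √T * s ^ (1 / 4 : ℝ) / Δ ^ (3 / 4 : ℝ) := by positivity
      linarith
    have e5 : s * (L * s) ≤ s * FF N L T Δ s := mul_le_mul_of_nonneg_left e3 hs0.le
    have e6 : s * (L * N / Δ) ≤ s * FF N L T Δ s := mul_le_mul_of_nonneg_left (e2.trans e4) hs0.le
    have e7 : 0 ≤ s * FF N L T Δ s := mul_nonneg hs0.le (FF_nonneg hΔ0.le hs0.le)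
    rw [e1]
    linarith
  have hlast : SN S κ Δ N ≤ 6 * C3 * 5 ^ (ε / 4) * κ ^ 2 * (N : ℝ) ^ ε * (s * FF N L T Δ s) := by
    have h4 := h3 κ T' Δ hκ hΔ hΔT' S x hS hSx N 1 hN le_rfl le_rfl (by
      rw [pow_one, hT']; linarith)
    rw [← hs'] at h4
    simp only [pow_one] at h4
    have e4 : (N : ℝ) ^ 2 / Δ ≤ FF N L T Δ s := by
      unfold FF
      have a1 : 0 ≤ L * s := by positivity
      have a2 : 0 ≤ L * √T * s ^ (1 / 4 : ℝ) / Δ ^ (3 / 4 : ℝ) := by positivity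
      linarith
    have e5 : (T' + (N : ℝ) ^ 2) / Δ ≤ 6 * ((N : ℝ) ^ 2 / Δ) := by
      rw [← mul_div_assoc]
      apply div_le_div_of_nonneg_right _ hΔ0.le
      linarith
    have e6 : s ^ (2 * 1 - 1) = s := by norm_num
    rw [e6] at h4
    calc SN S κ Δ N ≤ C3 * κ ^ 2 * T' ^ (ε / 4) * s * ((T' + (N : ℝ) ^ 2) / Δ) := h4
      _ ≤ C3 * κ ^ 2 * (5 ^ (ε / 4) * (N : ℝ) ^ ε) * s * (6 * FF N L T Δ s) := by
          have k1 : T' ^ (ε / 4) ≤ 5 ^ (ε / 4) * (N : ℝ) ^ ε := hTe.trans (by gcongr)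
          have k2 : (T' + (N : ℝ) ^ 2) / Δ ≤ 6 * FF N L T Δ s := e5.trans (by linarith)
          gcongr
      _ = _ := by ring
  have hP := FF_nonneg (N := N) (L := L) (T := T) hΔ0.le hs0.le
  calc ZZ A S ≤ 2 * L / N * ∑ g ∈ Icc 1 N, SN S κ Δ (N / g) + SN S κ Δ N := hfib
    _ ≤ 2 * L / N * (C1 * κ ^ 2 * T' ^ (ε / 4) * (1 + Real.log N) *
          (s ^ 2 * (1 + Q) * N + s / Δ * (N : ℝ) ^ 2)) +
          6 * C3 * 5 ^ (ε / 4) * κ ^ 2 * (N : ℝ) ^ ε * (s * FF N L T Δ s) := by gcongr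
    _ = C1 * κ ^ 2 * T' ^ (ε / 4) * (1 + Real.log N) *
          (2 * L / N * (s ^ 2 * (1 + Q) * N + s / Δ * (N : ℝ) ^ 2)) +
          6 * C3 * 5 ^ (ε / 4) * κ ^ 2 * (N : ℝ) ^ ε * (s * FF N L T Δ s) := by ring
    _ ≤ C1 * κ ^ 2 * (5 ^ (ε / 4) * (N : ℝ) ^ (ε / 2)) * (C2 * (N : ℝ) ^ (ε / 2)) *
          (12 * (s * FF N L T Δ s)) +
          6 * C3 * 5 ^ (ε / 4) * κ ^ 2 * (N : ℝ) ^ ε * (s * FF N L T Δ s) := by
        gcongr
    _ = 12 * C1 * C2 * 5 ^ (ε / 4) * κ ^ 2 * ((N : ℝ) ^ (ε / 2) * (N : ℝ) ^ (ε / 2)) *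
          (s * FF N L T Δ s) +
          6 * C3 * 5 ^ (ε / 4) * κ ^ 2 * (N : ℝ) ^ ε * (s * FF N L T Δ s) := by ring
    _ = _ := by rw [← Real.rpow_add hN0, add_halves]; ring

/-- the local inequality -/
theorem locally {A : Finset ℕ} (hA1 : ∀ n ∈ A, 1 ≤ n) (a : ℕ → ℂ) {Δ κ : ℝ} (hκ : 1 ≤ κ) (n₀ : ℕ)
    (t₀ θ : ℝ) (hθ0 : 0 ≤ θ) (hθ1 : θ ≤ 1) :
    ‖DD A a (t₀ + Δ * θ)‖ ^ 2 ≤ ∫ v in (0 : ℝ)..1, (2 * ‖DD A a (t₀ + Δ * v)‖ ^ 2 +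
      κ ^ 2 * ‖DD A (fun n => Complex.I * (Δ * (Real.log n - Real.log n₀) / κ : ℝ) * a n)
        (t₀ + Δ * v)‖ ^ 2) := by
  have hκ0 : κ ≠ 0 := by linarith
  set l : ℕ → ℝ := fun n => Real.log n - Real.log n₀ with hl
  set E : ℝ → ℂ := fun t => Complex.exp (((-(t * Real.log n₀) : ℝ) : ℂ) * Complex.I) with hE
  have hEn : ∀ t, ‖E t‖ = 1 := fun t => Complex.norm_exp_ofReal_mul_I _
  set a' : ℕ → ℂ := fun n => Complex.I * (Δ * (Real.log n - Real.log n₀) / κ : ℝ) * a n with ha'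
  have hprod : ∀ (b : ℕ → ℂ) (t : ℝ), E t * DD A b t =
      ∑ n ∈ A, b n * Complex.exp (((t * l n : ℝ) : ℂ) * Complex.I) := by
    intro b t
    unfold DD
    rw [mul_sum]
    refine sum_congr rfl fun n _ => ?_
    unfold ee
    rw [hE, mul_left_comm]
    congr 1
    simp only
    rw [← Complex.exp_add]
    congr 1
    rw [hl]
    push_cast
    ring
  set h : ℝ → ℂ := fun v => ∑ n ∈ A, a n * Complex.exp ((((t₀ + Δ * v) * l n : ℝ) : ℂ) * Complex.I)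
    with hh
  set h' : ℝ → ℂ := fun v => (κ : ℂ) *
    ∑ n ∈ A, a' n * Complex.exp ((((t₀ + Δ * v) * l n : ℝ) : ℂ) * Complex.I) with hh'
  have hhn : ∀ v, ‖h v‖ = ‖DD A a (t₀ + Δ * v)‖ := by
    intro v
    have := congrArg norm (hprod a (t₀ + Δ * v))
    rw [norm_mul, hEn, one_mul] at this
    exact this.symm
  have hh'n : ∀ v, ‖h' v‖ ^ 2 = κ ^ 2 * ‖DD A a' (t₀ + Δ * v)‖ ^ 2 := by
    intro v
    have := congrArg norm (hprod a' (t₀ + Δ * v))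
    rw [norm_mul, hEn, one_mul] at this
    rw [hh']
    simp only
    rw [norm_mul, mul_pow, this, Complex.norm_real, Real.norm_eq_abs, sq_abs]
  have hd : ∀ v, HasDerivAt h (h' v) v := by
    intro v
    have k : HasDerivAt h (∑ n ∈ A, a n * (Complex.exp ((((t₀ + Δ * v) * l n : ℝ) : ℂ) * Complex.I) *
        (((Δ * l n : ℝ) : ℂ) * Complex.I))) v := by
      rw [hh]
      apply HasDerivAt.fun_sum
      intro n _
      apply HasDerivAt.const_mul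
      have k1 : HasDerivAt (fun v : ℝ => (t₀ + Δ * v) * l n) (Δ * l n) v := by
        have := (((hasDerivAt_id v).const_mul Δ).const_add t₀).mul_const (l n)
        simpa using this
      have k2 : HasDerivAt (fun v : ℝ => (((t₀ + Δ * v) * l n : ℝ) : ℂ) * Complex.I)
          (((Δ * l n : ℝ) : ℂ) * Complex.I) v := k1.ofReal_comp.mul_const Complex.I
      exact k2.cexp
    convert k using 1
    rw [hh']
    simp only
    rw [mul_sum]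
    refine sum_congr rfl fun n _ => ?_
    rw [ha', hl]
    push_cast
    have : (κ : ℂ) ≠ 0 := by exact_mod_cast hκ0
    field_simp
  have hc : Continuous h := by
    rw [hh]
    fun_prop
  have hc' : Continuous h' := by
    rw [hh']
    fun_prop
  have key := Pool.Agent.W170.MV.gall hd hc hc' 0 θ hθ0 (by linarith)
  rw [zero_add, hhn] at key
  refine key.trans (le_of_eq ?_)
  congr 1
  ext v
  rw [hhn, hh'n]

end Pool.Agent.H73.HB
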