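import Pool.Agent.H73.HB.D

/-!
# The bilinear argument
-/

set_option autoImplicit false

namespace Pool.Agent.H73.HB

open Finset MeasureTheory Pool.Agent.Y766 Pool.Agent.Y766.PS Pool.Agent.X108.HB

/-- the left ends of the cells of length `Δ` which meet `W + X` -/
noncomputable def MM (Δ : ℝ) (W X : Finset ℝ) : Finset ℝ := by
  classical
  exact (W ×ˢ X).image fun p => Δ * (⌊(p.1 + p.2) / Δ⌋ : ℝ)

theorem bilinear {A : Finset ℕ} (hA1 : ∀ n ∈ A, 1 ≤ n) (a : ℕ → ℂ) (ha : ∀ n ∈ A, ‖a n‖ ≤ 1)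
    {Δ κ : ℝ} (hΔ : 0 < Δ) (hκ : 1 ≤ κ)
    (hn : ∀ n ∈ A, ∀ n' ∈ A, Δ * |Real.log n - Real.log n'| ≤ κ) (W X : Finset ℝ)
    (hW : ∀ t ∈ W, ∀ u ∈ W, t ≠ u → Δ ≤ |t - u|) :
    X.card * ∑ w ∈ W, ‖DD A a w‖ ^ 2 ≤ (2 + κ ^ 2) * (√(ZZ A (MM Δ W X)) * √(ZZ A X)) := by
  classical
  set M := MM Δ W X with hM
  rcases A.eq_empty_or_nonempty with hAe | ⟨n₀, hn₀⟩
  · have : ∀ w, DD A a w = 0 := by
      intro w
      unfold DD
      rw [hAe, sum_empty]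
    simp only [this, norm_zero]
    simp only [ne_eq, OfNat.ofNat_ne_zero, not_false_eq_true, zero_pow, sum_const_zero, mul_zero]
    positivity
  have hκ0 : 0 < κ := by linarith
  set a' : ℕ → ℂ := fun n => Complex.I * (Δ * (Real.log n - Real.log n₀) / κ : ℝ) * a n with ha'
  have ha'n : ∀ n ∈ A, ‖a' n‖ ≤ 1 := by
    intro n hnA
    rw [ha']
    simp only [norm_mul, Complex.norm_I, one_mul, Complex.norm_real, Real.norm_eq_abs]
    rw [abs_div, abs_mul, abs_of_pos hΔ, abs_of_pos hκ0]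
    have h1 : Δ * |Real.log n - Real.log n₀| / κ ≤ 1 := (div_le_one hκ0).2 (hn n hnA n₀ hn₀)
    calc _ ≤ 1 * 1 := mul_le_mul h1 (ha n hnA) (norm_nonneg _) (by norm_num)
      _ = 1 := one_mul 1
  have hcont : ∀ b : ℕ → ℂ, Continuous (fun t => DD A b t) := by
    intro b
    unfold DD
    have := fun r => ee_cont r
    fun_prop
  set g : ℝ → ℝ → ℝ := fun t₀ v => 2 * ‖DD A a (t₀ + Δ * v)‖ ^ 2 + κ ^ 2 * ‖DD A a' (t₀ + Δ * v)‖ ^ 2
    with hg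
  have hgc : ∀ t₀, Continuous (g t₀) := by
    intro t₀
    rw [hg]
    have h1 := hcont a
    have h2 := hcont a'
    simp only
    fun_prop
  have hg0 : ∀ t₀ v, 0 ≤ g t₀ v := by
    intro t₀ v
    rw [hg]
    positivity
  set G : ℝ → ℝ := fun t₀ => ∫ v in (0 : ℝ)..1, g t₀ v with hG
  have hG0 : ∀ t₀, 0 ≤ G t₀ := fun t₀ => intervalIntegral.integral_nonneg (by norm_num) fun v _ => hg0 t₀ v
  -- one shift
  have h1 : ∀ x ∈ X, ∑ w ∈ W, ‖DD A a w‖ ^ 2 ≤ ∑ μ ∈ M, G (μ - x) := by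
    intro x hx
    set f : ℝ → ℝ := fun w => Δ * (⌊(w + x) / Δ⌋ : ℝ) with hf
    have hle : ∀ w, f w ≤ w + x ∧ w + x < f w + Δ := by
      intro w
      have k1 := Int.floor_le ((w + x) / Δ)
      have k2 := Int.lt_floor_add_one ((w + x) / Δ)
      rw [le_div_iff₀ hΔ] at k1
      rw [div_lt_iff₀ hΔ] at k2
      rw [hf]
      constructor
      · simp only; linarith
      · simp only; linarith
    have hinj : Set.InjOn f (W : Set ℝ) := by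
      intro t ht u hu htu
      by_contra hne
      have h2 := hW t ht u hu hne
      have k1 := hle t
      have k2 := hle u
      rw [htu] at k1
      rcases le_abs.1 h2 with h3 | h3 <;> linarith [k1.1, k1.2, k2.1, k2.2]
    have hsub : W.image f ⊆ M := by
      intro μ hμ
      rw [mem_image] at hμ
      obtain ⟨w, hw, rfl⟩ := hμ
      rw [hM]
      unfold MM
      rw [mem_image]
      exact ⟨(w, x), mem_product.2 ⟨hw, hx⟩, rfl⟩
    calc ∑ w ∈ W, ‖DD A a w‖ ^ 2 ≤ ∑ w ∈ W, G (f w - x) := by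
          refine sum_le_sum fun w _ => ?_
          obtain ⟨k1, k2⟩ := hle w
          have k3 := locally hA1 a hκ n₀ (f w - x) (Δ := Δ) ((w + x - f w) / Δ)
            (div_nonneg (by linarith) hΔ.le) ((div_le_one hΔ).2 (by linarith))
          have k4 : f w - x + Δ * ((w + x - f w) / Δ) = w := by field_simp; ring
          rw [k4] at k3
          exact k3
      _ = ∑ μ ∈ W.image f, G (μ - x) := by rw [sum_image hinj]
      _ ≤ ∑ μ ∈ M, G (μ - x) := sum_le_sum_of_subset_of_nonneg hsub fun μ _ _ => hG0 _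
  have h2 : X.card * ∑ w ∈ W, ‖DD A a w‖ ^ 2 ≤ ∑ x ∈ X, ∑ μ ∈ M, G (μ - x) := by
    rw [← nsmul_eq_mul, ← sum_const]
    exact sum_le_sum h1
  refine h2.trans ?_
  have h3 : ∑ x ∈ X, ∑ μ ∈ M, G (μ - x) = ∫ v in (0 : ℝ)..1, ∑ x ∈ X, ∑ μ ∈ M, g (μ - x) v := by
    rw [intervalIntegral.integral_finsetSum]
    · refine sum_congr rfl fun x _ => ?_
      rw [intervalIntegral.integral_finsetSum]
      intro μ _
      exact (hgc _).intervalIntegrable _ _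
    · intro x _
      apply Continuous.intervalIntegrable
      exact continuous_finsetSum _ fun μ _ => hgc _
  rw [h3]
  have hbil : ∀ (b : ℕ → ℂ), (∀ n ∈ A, ‖b n‖ ≤ 1) → ∀ v : ℝ,
      ∑ x ∈ X, ∑ μ ∈ M, ‖DD A b (μ - x + Δ * v)‖ ^ 2 ≤ √(ZZ A M) * √(ZZ A X) := by
    intro b hb v
    have := bil_sub hA1 b hb M X (Δ * v)
    rw [sum_comm] at this
    refine le_trans (le_of_eq ?_) this
    refine sum_congr rfl fun x _ => sum_congr rfl fun μ _ => ?_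
    congr 3
    ring
  have h4 : ∀ v ∈ Set.Icc (0 : ℝ) 1, ∑ x ∈ X, ∑ μ ∈ M, g (μ - x) v ≤
      (2 + κ ^ 2) * (√(ZZ A M) * √(ZZ A X)) := by
    intro v _
    have k1 := hbil a ha v
    have k2 := hbil a' ha'n v
    have e : ∑ x ∈ X, ∑ μ ∈ M, g (μ - x) v = 2 * ∑ x ∈ X, ∑ μ ∈ M, ‖DD A a (μ - x + Δ * v)‖ ^ 2 +
        κ ^ 2 * ∑ x ∈ X, ∑ μ ∈ M, ‖DD A a' (μ - x + Δ * v)‖ ^ 2 := by
      rw [mul_sum, mul_sum, ← sum_add_distrib]
      refine sum_congr rfl fun x _ => ?_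
      rw [mul_sum, mul_sum, ← sum_add_distrib]
    rw [e]
    have k3 : κ ^ 2 * ∑ x ∈ X, ∑ μ ∈ M, ‖DD A a' (μ - x + Δ * v)‖ ^ 2 ≤
        κ ^ 2 * (√(ZZ A M) * √(ZZ A X)) := mul_le_mul_of_nonneg_left k2 (by positivity)
    linarith
  calc ∫ v in (0 : ℝ)..1, ∑ x ∈ X, ∑ μ ∈ M, g (μ - x) v
      ≤ ∫ _ in (0 : ℝ)..1, (2 + κ ^ 2) * (√(ZZ A M) * √(ZZ A X)) := by
        apply intervalIntegral.integral_mono_on (by norm_num)
        · apply Continuous.intervalIntegrable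
          exact continuous_finsetSum _ fun x _ => continuous_finsetSum _ fun μ _ => hgc _
        · exact intervalIntegrable_const
        · exact h4
    _ = _ := by
        rw [intervalIntegral.integral_const]
        simp

theorem MM_sep {Δ : ℝ} (hΔ : 0 < Δ) (W X : Finset ℝ) :
    ∀ t ∈ MM Δ W X, ∀ u ∈ MM Δ W X, t ≠ u → Δ ≤ |t - u| := by
  classical
  intro t ht u hu htu
  unfold MM at ht hu
  rw [mem_image] at ht hu
  obtain ⟨p, _, rfl⟩ := ht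
  obtain ⟨q, _, rfl⟩ := hu
  set k := ⌊(p.1 + p.2) / Δ⌋
  set l := ⌊(q.1 + q.2) / Δ⌋
  have hkl : k ≠ l := by
    intro h
    exact htu (by rw [h])
  have h1 : (1 : ℤ) ≤ |k - l| := Int.one_le_abs (sub_ne_zero.2 hkl)
  have h2 : (1 : ℝ) ≤ |(k : ℝ) - l| := by exact_mod_cast h1
  rw [← mul_sub, abs_mul, abs_of_pos hΔ]
  nlinarith

/-- the number of cells of length `Δ` which meet `W + X` -/
noncomputable def cells (Δ : ℝ) (W X : Finset ℝ) : ℕ := by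
  classical
  exact ((W ×ˢ X).image fun p => ⌊(p.1 + p.2) / Δ⌋).card

theorem MM_card {Δ : ℝ} (hΔ : 0 < Δ) (W X : Finset ℝ) : (MM Δ W X).card = cells Δ W X := by
  classical
  unfold MM cells
  have e : (W ×ˢ X).image (fun p : ℝ × ℝ => Δ * (⌊(p.1 + p.2) / Δ⌋ : ℝ)) =
      ((W ×ˢ X).image fun p : ℝ × ℝ => ⌊(p.1 + p.2) / Δ⌋).image (fun k : ℤ => Δ * (k : ℝ)) := by
    rw [image_image]
    rfl
  rw [e, card_image_of_injective]
  intro k l hkl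
  simp only at hkl
  exact_mod_cast mul_left_cancel₀ hΔ.ne' hkl

theorem MM_range {Δ T : ℝ} (hΔ : 0 < Δ) {W X : Finset ℝ} (hW : ∀ t ∈ W, 0 ≤ t ∧ t ≤ T)
    (hX : ∀ t ∈ X, -T ≤ t ∧ t ≤ T) : ∀ t ∈ MM Δ W X, -T - Δ ≤ t ∧ t ≤ 2 * T := by
  classical
  intro t ht
  unfold MM at ht
  rw [mem_image] at ht
  obtain ⟨p, hp, rfl⟩ := ht
  rw [mem_product] at hp
  have h1 := hW _ hp.1
  have h2 := hX _ hp.2
  have k1 := Int.floor_le ((p.1 + p.2) / Δ)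
  have k2 := Int.lt_floor_add_one ((p.1 + p.2) / Δ)
  rw [le_div_iff₀ hΔ] at k1
  rw [div_lt_iff₀ hΔ] at k2
  constructor <;> linarith [h1.1, h1.2, h2.1, h2.2]

/-- the nearness of the frequencies -/
theorem near_of {N : ℕ} (hN : 1 ≤ N) {Δ : ℝ} (hΔ : 1 ≤ Δ) {A : Finset ℕ} (hA : A ⊆ Icc 1 N)
    (h : Δ = 1 ∨ ∀ n ∈ A, ∀ n' ∈ A, N ≤ 2 * n ∧ Δ * |(n : ℝ) - n'| ≤ N) :
    ∀ n ∈ A, ∀ n' ∈ A, Δ * |Real.log n - Real.log n'| ≤ 2 + Real.log N := by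
  have hNr : (1 : ℝ) ≤ N := by exact_mod_cast hN
  have hlog0 : 0 ≤ Real.log N := Real.log_nonneg hNr
  rcases h with h | h
  · intro n hn n' hn'
    have k1 := mem_Icc.1 (hA hn)
    have k2 := mem_Icc.1 (hA hn')
    have a1 : (1 : ℝ) ≤ n := by exact_mod_cast k1.1
    have a2 : (1 : ℝ) ≤ n' := by exact_mod_cast k2.1
    have a3 : (n : ℝ) ≤ N := by exact_mod_cast k1.2
    have a4 : (n' : ℝ) ≤ N := by exact_mod_cast k2.2
    have b1 := Real.log_nonneg a1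
    have b2 := Real.log_nonneg a2
    have b3 := Real.log_le_log (by linarith) a3
    have b4 := Real.log_le_log (by linarith) a4
    rw [h, one_mul, abs_le]
    constructor <;> linarith
  · intro n hn n' hn'
    wlog hlt : n' ≤ n generalizing n n'
    · rw [abs_sub_comm]
      exact this n' hn' n hn (by omega)
    have k1 := mem_Icc.1 (hA hn)
    have k2 := mem_Icc.1 (hA hn')
    have a1 : (0 : ℝ) < n := by exact_mod_cast k1.1
    have a2 : (0 : ℝ) < n' := by exact_mod_cast k2.1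
    have a3 : (n' : ℝ) ≤ n := by exact_mod_cast hlt
    obtain ⟨c1, c2⟩ := h n' hn' n hn
    have c3 : (N : ℝ) ≤ 2 * n' := by exact_mod_cast c1
    rw [abs_sub_comm, abs_of_nonneg (by linarith)] at c2
    have c4 : Real.log n' ≤ Real.log n := Real.log_le_log a2 a3
    rw [abs_of_nonneg (by linarith)]
    have c5 : Real.log n - Real.log n' ≤ (n - n') / n' := by
      rw [← Real.log_div a1.ne' a2.ne']
      refine (Real.log_le_sub_one_of_pos (by positivity)).trans (le_of_eq ?_)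
      field_simp
    have c6 : Δ * ((n - n') / n') ≤ 2 := by
      rw [← mul_div_assoc, div_le_iff₀ a2]
      linarith
    have c7 : Δ * (Real.log n - Real.log n') ≤ Δ * ((n - n') / n') :=
      mul_le_mul_of_nonneg_left c5 (by linarith)
    linarith

/-- the main inequality -/
theorem main {ε : ℝ} (hε : 0 < ε) : ∃ C : ℝ, 1 ≤ C ∧ ∀ (N L : ℕ) (T Δ : ℝ) (a : ℕ → ℂ)
    (A : Finset ℕ) (m d : ℕ), 1 ≤ N → L ≤ N → 0 ≤ T → T ≤ (N : ℝ) ^ 2 → 1 ≤ Δ → Δ ≤ N →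
    (∀ n ∈ A, ‖a n‖ ≤ 1) → A ⊆ Icc 1 N → (∀ n ∈ A, ∃ j < L, n = m + d * j) →
    (Δ = 1 ∨ ∀ n ∈ A, ∀ n' ∈ A, N ≤ 2 * n ∧ Δ * |(n : ℝ) - n'| ≤ N) →
    ∀ W X : Finset ℝ, X.Nonempty → (∀ t ∈ W, 0 ≤ t ∧ t ≤ T) → (∀ t ∈ X, -T ≤ t ∧ t ≤ T) →
    (∀ t ∈ W, ∀ u ∈ W, t ≠ u → Δ ≤ |t - u|) → (∀ t ∈ X, ∀ u ∈ X, t ≠ u → Δ ≤ |t - u|) →
    ∑ t ∈ W, ‖DD A a t‖ ^ 2 ≤ C * (N : ℝ) ^ ε * (√((cells Δ W X : ℝ) / X.card) *
      √(FF N L T Δ X.card * FF N L T Δ (cells Δ W X))) := by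
  obtain ⟨C1, hC1, h1⟩ := ZZ_near (ε := ε / 2) (by positivity)
  obtain ⟨C2, hC2, h2⟩ := log_absorb (ε := ε / 8) (by positivity)
  refine ⟨3 * C1 * (2 * C2) ^ 4, ?_, ?_⟩
  · have : 1 ≤ (2 * C2) ^ 4 := one_le_pow₀ (by linarith)
    nlinarith
  intro N L T Δ a A m d hN hL hT0 hT hΔ hΔN ha hA hAP hnear W X hXn hW hX hWs hXs
  have hNr : (1 : ℝ) ≤ N := by exact_mod_cast hN
  have hN0 : (0 : ℝ) < N := by linarith
  have hΔ0 : 0 < Δ := by linarith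
  have hlog0 : 0 ≤ Real.log N := Real.log_nonneg hNr
  have hA1 : ∀ n ∈ A, 1 ≤ n := fun n hn => (mem_Icc.1 (hA hn)).1
  set κ : ℝ := 2 + Real.log N with hκ
  have hκ1 : 1 ≤ κ := by rw [hκ]; linarith
  have hnn := near_of hN hΔ hA hnear
  rw [← hκ] at hnn
  set M := MM Δ W X with hM
  have hb := bilinear hA1 a ha hΔ0 hκ1 hnn W X hWs
  rw [← hM] at hb
  set c : ℝ := (cells Δ W X : ℝ) with hc
  have hMc : (M.card : ℝ) = c := by rw [hM, MM_card hΔ0]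
  set p : ℝ := (X.card : ℝ) with hp
  have hp1 : 1 ≤ p := by rw [hp]; exact_mod_cast hXn.card_pos
  have hp0 : 0 < p := by linarith
  have hc0 : 0 ≤ c := Nat.cast_nonneg _
  have hZM := h1 N T Δ κ hN hT0 hT hΔ hΔN hκ1 A hA m d L hL hAP hnn M (-T - Δ)
    (MM_sep hΔ0 W X) (fun t ht => by
      have := MM_range hΔ0 hW hX t ht
      exact ⟨this.1, by linarith [this.2]⟩)
  have hZX := h1 N T Δ κ hN hT0 hT hΔ hΔN hκ1 A hA m d L hL hAP hnn X (-T) hXs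
    (fun t ht => ⟨(hX t ht).1, by linarith [(hX t ht).2]⟩)
  rw [hMc] at hZM
  rw [← hp] at hZX
  set F1 := FF N L T Δ p with hF1
  set F2 := FF N L T Δ c with hF2
  have hF10 : 0 ≤ F1 := FF_nonneg hΔ0.le hp0.le
  have hF20 : 0 ≤ F2 := FF_nonneg hΔ0.le hc0
  set B : ℝ := C1 * κ ^ 2 * (N : ℝ) ^ (ε / 2) with hB
  have hB0 : 0 ≤ B := by positivity
  have hprod : √(ZZ A M) * √(ZZ A X) ≤ B * (√(p * c) * √(F1 * F2)) := by
    calc √(ZZ A M) * √(ZZ A X) ≤ √(B * (c * F2)) * √(B * (p * F1)) := by gcongr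
      _ = √((B ^ 2) * ((p * c) * (F1 * F2))) := by
          rw [← Real.sqrt_mul (by positivity)]
          congr 1
          ring
      _ = _ := by
          rw [Real.sqrt_mul (by positivity), Real.sqrt_sq hB0, Real.sqrt_mul (by positivity)]
  have hκle : (2 + κ ^ 2) * κ ^ 2 ≤ 3 * (2 * C2) ^ 4 * (N : ℝ) ^ (ε / 2) := by
    have k1 : κ ≤ 2 * C2 * (N : ℝ) ^ (ε / 8) := by
      have := h2 N hNr
      rw [hκ]
      linarith
    have k2 : 1 ≤ κ ^ 2 := one_le_pow₀ hκ1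
    have k3 : (2 + κ ^ 2) * κ ^ 2 ≤ 3 * κ ^ 4 := by nlinarith
    have k4 : κ ^ 4 ≤ (2 * C2 * (N : ℝ) ^ (ε / 8)) ^ 4 := pow_le_pow_left₀ (by linarith) k1 4
    have k5 : (2 * C2 * (N : ℝ) ^ (ε / 8)) ^ 4 = (2 * C2) ^ 4 * (N : ℝ) ^ (ε / 2) := by
      rw [mul_pow, ← Real.rpow_natCast ((N : ℝ) ^ (ε / 8)), ← Real.rpow_mul hN0.le]
      congr 2
      push_cast
      ring
    rw [k5] at k4
    linarith
  have hfin : p * ∑ w ∈ W, ‖DD A a w‖ ^ 2 ≤ p * (3 * C1 * (2 * C2) ^ 4 * (N : ℝ) ^ ε *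
      (√(c / p) * √(F1 * F2))) := by
    have e1 : √(p * c) = p * √(c / p) := by
      have : p * c = p ^ 2 * (c / p) := by field_simp
      rw [this, Real.sqrt_mul (by positivity), Real.sqrt_sq hp0.le]
    calc p * ∑ w ∈ W, ‖DD A a w‖ ^ 2 ≤ (2 + κ ^ 2) * (√(ZZ A M) * √(ZZ A X)) := hb
      _ ≤ (2 + κ ^ 2) * (B * (√(p * c) * √(F1 * F2))) := by gcongr
      _ = ((2 + κ ^ 2) * κ ^ 2) * (C1 * (N : ℝ) ^ (ε / 2) * (√(p * c) * √(F1 * F2))) := by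
          rw [hB]; ring
      _ ≤ (3 * (2 * C2) ^ 4 * (N : ℝ) ^ (ε / 2)) * (C1 * (N : ℝ) ^ (ε / 2) *
          (√(p * c) * √(F1 * F2))) := by gcongr
      _ = 3 * C1 * (2 * C2) ^ 4 * ((N : ℝ) ^ (ε / 2) * (N : ℝ) ^ (ε / 2)) *
          (√(p * c) * √(F1 * F2)) := by ring
      _ = _ := by
          rw [← Real.rpow_add hN0, add_halves, e1]
          ring
  exact le_of_mul_le_mul_left hfin hp0

end Pool.Agent.H73.HB
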